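import Mathlib

/-!
# Definitions for the almost-everywhere growth of the Lebesgue function
-/

set_option autoImplicit false

namespace Pool.Agent.Leb624

open Finset

/-- `|ω'(z_k)|` for the nodes `z 0, …, z (n-1)`. -/
noncomputable def al (z : ℕ → ℝ) (n k : ℕ) : ℝ := ∏ j ∈ (range n).erase k, |z k - z j|

/-- `|ω(x)|` for the nodes `z 0, …, z (n-1)`. -/
noncomputable def om (z : ℕ → ℝ) (n : ℕ) (x : ℝ) : ℝ := ∏ j ∈ range n, |x - z j|

/-- the length of the gap `[z i, z (i+1)]`. -/
noncomputable def gp (z : ℕ → ℝ) (i : ℕ) : ℝ := z (i + 1) - z i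

/-- the comparison value of `|ω|` on the gap `[z i, z (i+1)]`. -/
noncomputable def Bn (z : ℕ → ℝ) (n i : ℕ) : ℝ :=
  gp z i / 4 * Real.sqrt (al z n i * al z n (i + 1))

/-- the nodes `z 0, …, z (n-1)` are strictly increasing. -/
def Srt (z : ℕ → ℝ) (n : ℕ) : Prop := ∀ i j, i < j → j < n → z i < z j

/-- `D i j`: the largest distance of points of the gaps `i` and `j`. -/
noncomputable def Dd (z : ℕ → ℝ) (i j : ℕ) : ℝ := max (z (i + 1) - z j) (z (j + 1) - z i)

/-- the largest distance from `t` to a point of the gap `i`. -/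
noncomputable def Dt (z : ℕ → ℝ) (t : ℝ) (i : ℕ) : ℝ := max |z i - t| |z (i + 1) - t|

end Pool.Agent.Leb624
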