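import Mathlib
import Pool.Agent.Leb624.Defs
set_option autoImplicit false
namespace Pool.Agent.Leb624
open Finset MeasureTheory

/-- measure of `(a, b]` outside `A` -/
noncomputable def mm (A : Set ℝ) (a b : ℝ) : ℝ := (volume (Set.Ioc a b \ A)).toReal

theorem mm_nonneg (A : Set ℝ) (a b : ℝ) : 0 ≤ mm A a b := ENNReal.toReal_nonneg

theorem mm_fin (A : Set ℝ) (a b : ℝ) : volume (Set.Ioc a b \ A) ≠ ⊤ :=
  ((measure_mono Set.diff_subset).trans_lt measure_Ioc_lt_top).ne

theorem mm_add (A : Set ℝ) (hA : MeasurableSet A) {a b c : ℝ} (hab : a ≤ b) (hbc : b ≤ c) :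
    mm A a c = mm A a b + mm A b c := by
  unfold mm
  rw [← ENNReal.toReal_add (mm_fin A a b) (mm_fin A b c), ← measure_union]
  · congr 2
    rw [← Set.union_diff_distrib, Set.Ioc_union_Ioc_eq_Ioc hab hbc]
  · refine Set.disjoint_left.2 fun x hx hx' => ?_
    exact absurd hx.1.2 (not_le.2 hx'.1.1)
  · exact measurableSet_Ioc.diff hA

theorem mm_key (z : ℕ → ℝ) (n : ℕ) (A : Set ℝ) {ν : ℝ} (hν : 0 < ν)
    (hnear : ∀ a ∈ A, ∃ i < n, |a - z i| ≤ ν) {u v : ℝ}
    (hno : ∀ j < n, ¬ (u < z j ∧ z j < v)) : v - u ≤ 2 * ν + mm A u v := by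
  rcases le_or_gt v u with h | h
  · have := mm_nonneg A u v
    linarith
  have hsub : Set.Ioc u v ⊆ (Set.Icc u (u + ν) ∪ Set.Icc (v - ν) v) ∪ (Set.Ioc u v \ A) := by
    intro x hx
    by_cases hxA : x ∈ A
    · left
      obtain ⟨i, hi, hxi⟩ := hnear x hxA
      rw [abs_le] at hxi
      by_cases h1 : u < z i
      · right
        have h2 : v ≤ z i := by
          by_contra h3
          exact hno i hi ⟨h1, not_le.1 h3⟩
        exact ⟨by linarith, hx.2⟩
      · left
        exact ⟨hx.1.le, by linarith [not_lt.1 h1]⟩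
    · right
      exact ⟨hx, hxA⟩
  have h1 : volume (Set.Ioc u v) ≤ (ENNReal.ofReal ν + ENNReal.ofReal ν) + volume (Set.Ioc u v \ A) := by
    refine (measure_mono hsub).trans ((measure_union_le _ _).trans ?_)
    refine add_le_add ((measure_union_le _ _).trans (add_le_add ?_ ?_)) le_rfl
    · rw [Real.volume_Icc]; apply le_of_eq; congr 1; ring
    · rw [Real.volume_Icc]; apply le_of_eq; congr 1; ring
  rw [Real.volume_Ioc] at h1
  have h2 := ENNReal.toReal_mono (ENNReal.add_ne_top.2 ⟨ENNReal.add_ne_top.2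
    ⟨ENNReal.ofReal_ne_top, ENNReal.ofReal_ne_top⟩, mm_fin A u v⟩) h1
  rw [ENNReal.toReal_add (ENNReal.add_ne_top.2 ⟨ENNReal.ofReal_ne_top, ENNReal.ofReal_ne_top⟩)
    (mm_fin A u v), ENNReal.toReal_add ENNReal.ofReal_ne_top ENNReal.ofReal_ne_top,
    ENNReal.toReal_ofReal hν.le, ENNReal.toReal_ofReal (by linarith)] at h2
  unfold mm
  linarith

theorem sum_gp (z : ℕ → ℝ) {a b : ℕ} (hab : a ≤ b) : ∑ i ∈ Ico a b, gp z i = z b - z a := by
  induction b, hab using Nat.le_induction with
  | base => simp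
  | succ b hab ih =>
    rw [Finset.sum_Ico_succ_top hab, ih, gp]
    ring

theorem sum_mm (z : ℕ → ℝ) (n : ℕ) (hz : Srt z n) (A : Set ℝ) (hA : MeasurableSet A) {a b : ℕ}
    (hab : a ≤ b) (hb : b < n) :
    ∑ i ∈ Ico a b, mm A (z i) (z (i + 1)) = mm A (z a) (z b) := by
  induction b, hab using Nat.le_induction with
  | base => simp [mm]
  | succ b hab ih =>
    rw [Finset.sum_Ico_succ_top hab, ih (by omega)]
    rw [← mm_add A hA _ (hz b (b + 1) (by omega) hb).le]
    rcases hab.eq_or_lt with h | h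
    · rw [h]
    · exact (hz a b h (by omega)).le

theorem bad_measure (z : ℕ → ℝ) (n : ℕ) (hz : Srt z n) (A : Set ℝ) (hA : MeasurableSet A)
    (ν p q : ℝ) (hν : 0 < ν) (hpq : p < q) (hnear : ∀ a ∈ A, ∃ i < n, |a - z i| ≤ ν)
    (P Q : ℕ → ℝ)
    (hT : ∀ i, i + 1 < n → z i < P i ∧ Q i < z (i + 1) ∧ Q i - P i = gp z i / 40)
    (G : Finset ℕ)
    (hG : ∀ i, i ∈ G ↔ (i + 1 < n ∧ p ≤ z i ∧ z (i + 1) ≤ q ∧ gp z i ≤ 4 * ν ∧
      ∃ x ∈ Set.Icc (P i) (Q i), x ∈ A)) :
    (q - p) - ∑ i ∈ G, gp z i ≤ 40 * (volume (Set.Icc p q \ A)).toReal + 4 * ν := by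
  have hmono : ∀ i j, i ≤ j → j < n → z i ≤ z j := by
    intro i j hij hj
    rcases hij.eq_or_lt with h | h
    · rw [h]
    · exact (hz i j h hj).le
  have hmq : mm A p q ≤ (volume (Set.Icc p q \ A)).toReal := by
    apply ENNReal.toReal_mono
    · exact ((measure_mono Set.diff_subset).trans_lt measure_Icc_lt_top).ne
    · exact measure_mono (Set.diff_subset_diff_left Set.Ioc_subset_Icc_self)
  have hGpos : 0 ≤ ∑ i ∈ G, gp z i := by
    apply Finset.sum_nonneg
    intro i hi
    have := hz i (i + 1) (by omega) ((hG i).1 hi).1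
    unfold gp
    linarith
  let S : Finset ℕ := (range n).filter fun i => p ≤ z i ∧ z i ≤ q
  rcases S.eq_empty_or_nonempty with hS | hS
  · have h1 : q - p ≤ 2 * ν + mm A p q := by
      apply mm_key z n A hν hnear
      intro j hj hpj
      have : j ∈ S := Finset.mem_filter.2 ⟨Finset.mem_range.2 hj, hpj.1.le, hpj.2.le⟩
      rw [hS] at this
      simp at this
    have h2 := mm_nonneg A p q
    linarith
  · let i0 := S.min' hS
    let i1 := S.max' hS
    obtain ⟨h0a, h0b, h0c⟩ := Finset.mem_filter.1 (S.min'_mem hS)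
    obtain ⟨h1a, h1b, h1c⟩ := Finset.mem_filter.1 (S.max'_mem hS)
    change i0 ∈ range n at h0a
    change p ≤ z i0 at h0b
    change z i0 ≤ q at h0c
    change i1 ∈ range n at h1a
    change p ≤ z i1 at h1b
    change z i1 ≤ q at h1c
    rw [Finset.mem_range] at h0a h1a
    have hmin : ∀ j < n, p ≤ z j → z j ≤ q → i0 ≤ j := fun j hj h1 h2 =>
      S.min'_le j (Finset.mem_filter.2 ⟨Finset.mem_range.2 hj, h1, h2⟩)
    have hmax : ∀ j < n, p ≤ z j → z j ≤ q → j ≤ i1 := fun j hj h1 h2 =>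
      S.le_max' j (Finset.mem_filter.2 ⟨Finset.mem_range.2 hj, h1, h2⟩)
    have h01 : i0 ≤ i1 := hmin i1 h1a h1b h1c
    have k1 : z i0 - p ≤ 2 * ν + mm A p (z i0) := by
      apply mm_key z n A hν hnear
      intro j hj hpj
      have h2 := hmin j hj hpj.1.le (hpj.2.le.trans h0c)
      have h3 := hmono i0 j h2 hj
      linarith [hpj.2]
    have k2 : q - z i1 ≤ 2 * ν + mm A (z i1) q := by
      apply mm_key z n A hν hnear
      intro j hj hpj
      have h2 := hmax j hj (h1b.trans hpj.1.le) hpj.2.le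
      have h3 := hmono j i1 h2 h1a
      linarith [hpj.1]
    have hGsub : G ⊆ Ico i0 i1 := by
      intro i hi
      obtain ⟨g1, g2, g3, -, -⟩ := (hG i).1 hi
      have g4 := hz i (i + 1) (by omega) g1
      have g5 := hmin i (by omega) g2 (by linarith)
      have g6 := hmax (i + 1) g1 (by linarith) g3
      rw [Finset.mem_Ico]
      omega
    have hterm : ∀ i ∈ Ico i0 i1 \ G, gp z i ≤ 40 * mm A (z i) (z (i + 1)) := by
      intro i hi
      obtain ⟨hi1, hi2⟩ := Finset.mem_sdiff.1 hi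
      rw [Finset.mem_Ico] at hi1
      have hin : i + 1 < n := by omega
      have hlt := hz i (i + 1) (by omega) hin
      have hm0 := mm_nonneg A (z i) (z (i + 1))
      by_cases hbig : gp z i ≤ 4 * ν
      · have hno : ∀ x ∈ Set.Icc (P i) (Q i), x ∉ A := by
          intro x hx hxA
          apply hi2
          rw [hG i]
          exact ⟨hin, h0b.trans (hmono i0 i hi1.1 (by omega)), (hmono (i + 1) i1 (by omega) h1a).trans h1c,
            hbig, x, hx, hxA⟩
        obtain ⟨t1, t2, t3⟩ := hT i hin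
        have hsub : Set.Icc (P i) (Q i) ⊆ Set.Ioc (z i) (z (i + 1)) \ A := by
          intro x hx
          exact ⟨⟨by linarith [hx.1], by linarith [hx.2]⟩, hno x hx⟩
        have h5 := ENNReal.toReal_mono (mm_fin A (z i) (z (i + 1))) (measure_mono hsub)
        have h6 : 0 ≤ Q i - P i := by rw [t3]; unfold gp; linarith
        rw [Real.volume_Icc, ENNReal.toReal_ofReal h6, t3] at h5
        unfold mm
        linarith
      · push Not at hbig
        have h5 : z (i + 1) - z i ≤ 2 * ν + mm A (z i) (z (i + 1)) := by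
          apply mm_key z n A hν hnear
          intro j hj hpj
          rcases Nat.lt_or_ge i j with h6 | h6
          · have := hmono (i + 1) j (by omega) hj
            linarith [hpj.2]
          · have := hmono j i h6 (by omega)
            linarith [hpj.1]
        unfold gp at hbig ⊢
        linarith
    have e1 := sum_gp z h01
    have e2 := Finset.sum_sdiff (f := fun i => gp z i) hGsub
    have e3 : ∑ i ∈ Ico i0 i1 \ G, gp z i ≤ ∑ i ∈ Ico i0 i1, 40 * mm A (z i) (z (i + 1)) := by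
      refine (Finset.sum_le_sum hterm).trans ?_
      apply Finset.sum_le_sum_of_subset_of_nonneg Finset.sdiff_subset
      intro i _ _
      have := mm_nonneg A (z i) (z (i + 1))
      linarith
    rw [← Finset.mul_sum, sum_mm z n hz A hA h01 h1a] at e3
    have e4 : mm A p q = mm A p (z i0) + mm A (z i0) (z i1) + mm A (z i1) q := by
      rw [← mm_add A hA h0b (hmono i0 i1 h01 h1a), ← mm_add A hA h1b h1c]
    have e5 := mm_nonneg A p (z i0)
    have e6 := mm_nonneg A (z i1) q
    linarith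

end Pool.Agent.Leb624
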