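import Mathlib
import Pool.Agent.Leb624.Defs
set_option autoImplicit false
namespace Pool.Agent.Leb624
open Finset

theorem al_pos (z : ℕ → ℝ) (n : ℕ) (hz : Srt z n) (k : ℕ) (hk : k < n) : 0 < al z n k := by
  unfold al
  apply prod_pos
  intro j hj
  rw [mem_erase, mem_range] at hj
  apply abs_pos.mpr
  rw [sub_ne_zero]
  rcases lt_or_gt_of_ne hj.1 with h | h
  · exact (hz j k h hk).ne'
  · exact (hz k j h hj.2).ne

theorem om_low (z : ℕ → ℝ) (n : ℕ) (hz : Srt z n) (i : ℕ) (hi : i + 1 < n) (u : ℝ) (hu0 : 0 ≤ u)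
    (hu1 : u ≤ 1) :
    u * (1 - u) * gp z i * (al z n i ^ (1 - u) * al z n (i + 1) ^ u) ≤
      om z n (z i + u * gp z i) := by
  have hg : 0 < gp z i := by
    unfold gp
    have := hz i (i + 1) (by omega) hi
    linarith
  set g := gp z i with hgdef
  have hz1 : z (i + 1) = z i + g := by rw [hgdef]; unfold gp; ring
  set J := ((range n).erase i).erase (i + 1) with hJ
  have hiR : i ∈ range n := mem_range.mpr (by omega)
  have hi1R : i + 1 ∈ (range n).erase i := by
    rw [mem_erase, mem_range]; exact ⟨by omega, hi⟩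
  have hiR' : i ∈ (range n).erase (i + 1) := by
    rw [mem_erase, mem_range]; exact ⟨by omega, by omega⟩
  have ha : al z n i = g * ∏ j ∈ J, |z i - z j| := by
    unfold al
    rw [← mul_prod_erase _ _ hi1R, hz1]
    congr 1
    rw [show z i - (z i + g) = -g by ring, abs_neg, abs_of_pos hg]
  have hb : al z n (i + 1) = g * ∏ j ∈ J, |z (i + 1) - z j| := by
    unfold al
    rw [← mul_prod_erase _ _ hiR', erase_right_comm]
    congr 1
    rw [hz1, show z i + g - z i = g by ring, abs_of_pos hg]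
  have hom : om z n (z i + u * g) = (u * g) * (((1 - u) * g) * ∏ j ∈ J, |z i + u * g - z j|) := by
    unfold om
    rw [← mul_prod_erase _ _ hiR, ← mul_prod_erase _ _ hi1R, hz1]
    congr 1
    · rw [show z i + u * g - z i = u * g by ring, abs_of_nonneg (by positivity)]
    · congr 1
      rw [show z i + u * g - (z i + g) = -((1 - u) * g) by ring, abs_neg,
        abs_of_nonneg (mul_nonneg (by linarith) hg.le)]
  set P := ∏ j ∈ J, |z i - z j| with hP
  set Q := ∏ j ∈ J, |z (i + 1) - z j| with hQ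
  have hP0 : 0 ≤ P := prod_nonneg (fun _ _ => abs_nonneg _)
  have hQ0 : 0 ≤ Q := prod_nonneg (fun _ _ => abs_nonneg _)
  have hR : P ^ (1 - u) * Q ^ u ≤ ∏ j ∈ J, |z i + u * g - z j| := by
    rw [hP, hQ, ← Real.finsetProd_rpow _ _ (fun _ _ => abs_nonneg _),
      ← Real.finsetProd_rpow _ _ (fun _ _ => abs_nonneg _), ← prod_mul_distrib]
    apply prod_le_prod
    · intro j _
      positivity
    · intro j hj
      rw [hJ, mem_erase, mem_erase, mem_range] at hj
      obtain ⟨hj1, hj2, hj3⟩ := hj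
      have hag := Real.geom_mean_le_arith_mean2_weighted (w₁ := 1 - u) (w₂ := u)
        (p₁ := |z i - z j|) (p₂ := |z (i + 1) - z j|) (by linarith) hu0 (abs_nonneg _)
        (abs_nonneg _) (by ring)
      refine hag.trans (le_of_eq ?_)
      rcases lt_or_gt_of_ne hj2 with h | h
      · have h1 := hz j i h (by omega)
        rw [hz1, abs_of_pos (by linarith), abs_of_pos (by linarith),
          abs_of_pos (by have : 0 ≤ u * g := by positivity
                         linarith)]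
        ring
      · have h1 : z (i + 1) < z j := hz (i + 1) j (by omega) hj3
        rw [hz1] at h1 ⊢
        have h2 : u * g ≤ g := by nlinarith
        rw [abs_of_neg (by linarith), abs_of_neg (by linarith), abs_of_neg (by linarith)]
        ring
  have hab : al z n i ^ (1 - u) * al z n (i + 1) ^ u = g * (P ^ (1 - u) * Q ^ u) := by
    rw [ha, hb, Real.mul_rpow hg.le hP0, Real.mul_rpow hg.le hQ0]
    have h1 : g ^ (1 - u) * g ^ u = g := by
      rw [← Real.rpow_add hg]
      simp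
    calc g ^ (1 - u) * P ^ (1 - u) * (g ^ u * Q ^ u) = (g ^ (1 - u) * g ^ u) * (P ^ (1 - u) * Q ^ u) := by ring
      _ = _ := by rw [h1]
  rw [hab, hom]
  have h1 : 0 ≤ u * (1 - u) * g * g := by
    have : 0 ≤ 1 - u := by linarith
    positivity
  have h2 := mul_le_mul_of_nonneg_left hR h1
  linarith

theorem om_mid (z : ℕ → ℝ) (n : ℕ) (hz : Srt z n) (i : ℕ) (hi : i + 1 < n) (x : ℝ)
    (hx : (al z n i ≤ al z n (i + 1) ∧ z i + gp z i / 2 ≤ x ∧ x ≤ z i + gp z i / 2 + gp z i / 40) ∨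
      (al z n (i + 1) ≤ al z n i ∧ z i + gp z i / 2 - gp z i / 40 ≤ x ∧ x ≤ z i + gp z i / 2)) :
    (399 / 400) * Bn z n i ≤ om z n x := by
  have hg : 0 < gp z i := by
    unfold gp
    have := hz i (i + 1) (by omega) hi
    linarith
  have ha := al_pos z n hz i (by omega)
  have hb := al_pos z n hz (i + 1) hi
  obtain ⟨u, rfl⟩ : ∃ u, x = z i + u * gp z i := ⟨(x - z i) / gp z i, by field_simp; ring⟩
  have hBn : (399 / 400) * Bn z n i = 399 / 1600 * gp z i *
      (al z n i ^ (1 / 2 : ℝ) * al z n (i + 1) ^ (1 / 2 : ℝ)) := by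
    unfold Bn
    rw [Real.sqrt_eq_rpow, Real.mul_rpow ha.le hb.le]
    ring
  rw [hBn]
  set g := gp z i with hgdef
  set a := al z n i with hadef
  set b := al z n (i + 1) with hbdef
  have hub : 0 ≤ u ∧ u ≤ 1 ∧ 399 / 1600 ≤ u * (1 - u) ∧
      a ^ (1 / 2 : ℝ) * b ^ (1 / 2 : ℝ) ≤ a ^ (1 - u) * b ^ u := by
    rcases hx with ⟨h1, h2, h3⟩ | ⟨h1, h2, h3⟩
    · have hu1 : 1 / 2 ≤ u := by
        by_contra hcon
        push Not at hcon
        nlinarith
      have hu2 : u ≤ 1 / 2 + 1 / 40 := by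
        by_contra hcon
        push Not at hcon
        nlinarith
      refine ⟨by linarith, by linarith, by nlinarith, ?_⟩
      have e1 : b ^ u = b ^ (u - 1 / 2) * b ^ (1 / 2 : ℝ) := by
        rw [← Real.rpow_add hb]; congr 1; ring
      have e2 : a ^ (1 / 2 : ℝ) = a ^ (1 - u) * a ^ (u - 1 / 2) := by
        rw [← Real.rpow_add ha]; congr 1; ring
      have e3 : a ^ (u - 1 / 2) ≤ b ^ (u - 1 / 2) := Real.rpow_le_rpow ha.le h1 (by linarith)
      rw [e1, e2]
      have e4 : 0 ≤ a ^ (1 - u) := Real.rpow_nonneg ha.le _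
      have e5 : 0 ≤ b ^ (1 / 2 : ℝ) := Real.rpow_nonneg hb.le _
      calc a ^ (1 - u) * a ^ (u - 1 / 2) * b ^ (1 / 2 : ℝ)
          ≤ a ^ (1 - u) * b ^ (u - 1 / 2) * b ^ (1 / 2 : ℝ) :=
            mul_le_mul_of_nonneg_right (mul_le_mul_of_nonneg_left e3 e4) e5
        _ = _ := by ring
    · have hu1 : u ≤ 1 / 2 := by
        by_contra hcon
        push Not at hcon
        nlinarith
      have hu2 : 1 / 2 - 1 / 40 ≤ u := by
        by_contra hcon
        push Not at hcon
        nlinarith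
      refine ⟨by linarith, by linarith, by nlinarith, ?_⟩
      have e1 : a ^ (1 - u) = a ^ (1 / 2 : ℝ) * a ^ (1 / 2 - u) := by
        rw [← Real.rpow_add ha]; congr 1; ring
      have e2 : b ^ (1 / 2 : ℝ) = b ^ (1 / 2 - u) * b ^ u := by
        rw [← Real.rpow_add hb]; congr 1; ring
      have e3 : b ^ (1 / 2 - u) ≤ a ^ (1 / 2 - u) := Real.rpow_le_rpow hb.le h1 (by linarith)
      rw [e1, e2]
      have e4 : 0 ≤ a ^ (1 / 2 : ℝ) := Real.rpow_nonneg ha.le _
      have e5 : 0 ≤ b ^ u := Real.rpow_nonneg hb.le _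
      calc a ^ (1 / 2 : ℝ) * (b ^ (1 / 2 - u) * b ^ u) = a ^ (1 / 2 : ℝ) * b ^ (1 / 2 - u) * b ^ u := by ring
        _ ≤ a ^ (1 / 2 : ℝ) * a ^ (1 / 2 - u) * b ^ u :=
            mul_le_mul_of_nonneg_right (mul_le_mul_of_nonneg_left e3 e4) e5
  obtain ⟨hu0, hu1, hu2, hu3⟩ := hub
  refine le_trans ?_ (om_low z n hz i hi u hu0 hu1)
  have e4 : 0 ≤ a ^ (1 / 2 : ℝ) * b ^ (1 / 2 : ℝ) :=
    mul_nonneg (Real.rpow_nonneg ha.le _) (Real.rpow_nonneg hb.le _)
  have e5 : 399 / 1600 * g ≤ u * (1 - u) * g := mul_le_mul_of_nonneg_right hu2 hg.le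
  exact mul_le_mul e5 hu3 e4 (le_trans (by positivity) e5)

theorem bump (z : ℕ → ℝ) (n : ℕ) (hz : Srt z n) (i : ℕ) (hi : i + 1 < n) :
    ∃ p q : ℝ, z i < p ∧ q < z (i + 1) ∧ q - p = gp z i / 40 ∧
      ∀ x ∈ Set.Icc p q, (399 / 400) * Bn z n i ≤ om z n x := by
  have hg : 0 < gp z i := by
    unfold gp
    have := hz i (i + 1) (by omega) hi
    linarith
  have hz1 : z (i + 1) = z i + gp z i := by unfold gp; ring
  rcases le_total (al z n i) (al z n (i + 1)) with h | h
  · refine ⟨z i + gp z i / 2, z i + gp z i / 2 + gp z i / 40, by linarith, by linarith, by ring, ?_⟩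
    intro x hx
    exact om_mid z n hz i hi x (Or.inl ⟨h, hx.1, hx.2⟩)
  · refine ⟨z i + gp z i / 2 - gp z i / 40, z i + gp z i / 2, by linarith, by linarith, by ring, ?_⟩
    intro x hx
    exact om_mid z n hz i hi x (Or.inr ⟨h, hx.1, hx.2⟩)

theorem term_bound (z : ℕ → ℝ) (n : ℕ) (hz : Srt z n) (i : ℕ) (hi : i + 1 < n) (s t : ℝ)
    (hs : 0 ≤ s) (ht : 0 ≤ t) :
    min s t * gp z i / (4 * Bn z n i) ≤ (s / al z n i + t / al z n (i + 1)) / 2 := by
  have hg : 0 < gp z i := by
    unfold gp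
    have := hz i (i + 1) (by omega) hi
    linarith
  have ha := al_pos z n hz i (by omega)
  have hb := al_pos z n hz (i + 1) hi
  unfold Bn
  generalize al z n i = a at ha ⊢
  generalize al z n (i + 1) = b at hb ⊢
  generalize gp z i = g at hg ⊢
  have hsq : 0 < √(a * b) := Real.sqrt_pos.mpr (mul_pos ha hb)
  have h1 : min s t * g / (4 * (g / 4 * √(a * b))) = min s t * (1 / √(a * b)) := by
    field_simp
  rw [h1]
  have h2 : 1 / √(a * b) ≤ (1 / a + 1 / b) / 2 := by
    have h3 : (1 / √(a * b)) ^ 2 ≤ ((1 / a + 1 / b) / 2) ^ 2 := by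
      rw [div_pow, Real.sq_sqrt (mul_pos ha hb).le, one_pow]
      have h4 : 1 / (a * b) = (1 / a) * (1 / b) := by field_simp
      rw [h4]
      nlinarith [sq_nonneg (1 / a - 1 / b)]
    exact le_of_sq_le_sq h3 (by positivity)
  have hm0 : 0 ≤ min s t := le_min hs ht
  calc min s t * (1 / √(a * b)) ≤ min s t * ((1 / a + 1 / b) / 2) := mul_le_mul_of_nonneg_left h2 hm0
    _ = (min s t * (1 / a) + min s t * (1 / b)) / 2 := by ring
    _ ≤ (s * (1 / a) + t * (1 / b)) / 2 := by
        have h5 := mul_le_mul_of_nonneg_right (min_le_left s t) (show 0 ≤ 1 / a by positivity)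
        have h6 := mul_le_mul_of_nonneg_right (min_le_right s t) (show 0 ≤ 1 / b by positivity)
        linarith
    _ = _ := by rw [mul_one_div, mul_one_div]

theorem factB (z : ℕ → ℝ) (n : ℕ) (hz : Srt z n) (φ : ℕ → ℝ) (hφ : ∀ k < n, 0 ≤ φ k) :
    ∑ i ∈ range (n - 1), min (φ i) (φ (i + 1)) * gp z i / (4 * Bn z n i)
      ≤ ∑ k ∈ range n, φ k / al z n k := by
  rcases n with _ | m
  · simp
  rw [Nat.add_sub_cancel]
  have h1 : ∑ i ∈ range m, min (φ i) (φ (i + 1)) * gp z i / (4 * Bn z (m + 1) i) ≤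
      ∑ i ∈ range m, (φ i / al z (m + 1) i + φ (i + 1) / al z (m + 1) (i + 1)) / 2 := by
    apply sum_le_sum
    intro i hi
    rw [mem_range] at hi
    exact term_bound z (m + 1) hz i (by omega) _ _ (hφ i (by omega)) (hφ (i + 1) (by omega))
  rw [← sum_div, sum_add_distrib] at h1
  have h2 : ∑ i ∈ range m, φ i / al z (m + 1) i ≤ ∑ k ∈ range (m + 1), φ k / al z (m + 1) k := by
    rw [sum_range_succ]
    have : 0 ≤ φ m / al z (m + 1) m := div_nonneg (hφ m (by omega)) (al_pos z _ hz m (by omega)).le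
    linarith
  have h3 : ∑ i ∈ range m, φ (i + 1) / al z (m + 1) (i + 1) ≤
      ∑ k ∈ range (m + 1), φ k / al z (m + 1) k := by
    rw [sum_range_succ']
    have : 0 ≤ φ 0 / al z (m + 1) 0 := div_nonneg (hφ 0 (by omega)) (al_pos z _ hz 0 (by omega)).le
    linarith
  linarith

end Pool.Agent.Leb624
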