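import Mathlib
import Pool.Agent.Leb624.Defs
import Pool.Prelude.Def_F_5a667248
set_option autoImplicit false
open N216bd313
namespace Pool.Agent.Leb624
open Finset

open Polynomial in
theorem J4694_T (u : ℝ) (hu : 0 ≤ u) (m : ℕ) :
    1 + (m : ℝ) ^ 2 * u ≤ (Chebyshev.T ℝ (m : ℤ)).eval (1 + u) ∧
    (2 * (m : ℝ) + 1) * u ≤ (Chebyshev.T ℝ ((m : ℤ) + 1)).eval (1 + u) -
      (Chebyshev.T ℝ (m : ℤ)).eval (1 + u) := by
  induction m with
  | zero =>
    simp
  | succ m ih =>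
    obtain ⟨h1, h2⟩ := ih
    have h3 := congrArg (Polynomial.eval (1 + u)) (Chebyshev.T_add_two ℝ (m : ℤ))
    simp only [eval_sub, eval_mul, eval_X, eval_ofNat] at h3
    have e1 : (((m + 1 : ℕ) : ℤ)) = (m : ℤ) + 1 := by push_cast; ring
    have e2 : (((m + 1 : ℕ) : ℤ)) + 1 = (m : ℤ) + 2 := by push_cast; ring
    rw [e2, e1]
    set a := (Chebyshev.T ℝ (m : ℤ)).eval (1 + u) with ha
    set b := (Chebyshev.T ℝ ((m : ℤ) + 1)).eval (1 + u) with hb
    push_cast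
    have hm : (0 : ℝ) ≤ (m : ℝ) := Nat.cast_nonneg m
    have hb1 : 1 ≤ b := by nlinarith [mul_nonneg (sq_nonneg (m : ℝ)) hu, mul_nonneg hm hu]
    refine ⟨by nlinarith, ?_⟩
    rw [h3]
    nlinarith [mul_nonneg hu (sub_nonneg.mpr hb1)]

open Polynomial in
theorem node_density (xs : ℕ → Set.Icc (-1 : ℝ) 1) (hinj : Function.Injective xs) (n m : ℕ)
    (hm : 2 * m < n) (a : ℝ) (ha : a ∈ Set.Icc (-1 : ℝ) 1) (s : ℝ) (hs : 0 < s) (hs1 : s < 1)
    (hno : ∀ k < n, s ≤ |(xs k : ℝ) - a|) :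
    1 + (m : ℝ) ^ 2 * s ^ 2 / 2 ≤ lebesgueFunctionSeq xs n a := by
  have h4 : 0 < 4 - s ^ 2 := by nlinarith
  set v : ℝ[X] := C ((4 - s ^ 2)⁻¹) * (C (4 + s ^ 2) - C 2 * (X - C a) ^ 2) with hv
  have hve : ∀ x, v.eval x = (4 - s ^ 2)⁻¹ * (4 + s ^ 2 - 2 * (x - a) ^ 2) := by
    intro x; rw [hv]; simp
  have hvd : v.natDegree ≤ 2 := by
    rw [hv]
    compute_degree
  set p : ℝ[X] := (Chebyshev.T ℝ (m : ℤ)).comp v with hp
  have hpd : p.natDegree ≤ 2 * m := by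
    rw [hp]
    refine natDegree_comp_le.trans ?_
    rw [Chebyshev.natDegree_T]
    have : (m : ℤ).natAbs = m := Int.natAbs_natCast m
    rw [this, mul_comm]
    exact Nat.mul_le_mul_right m hvd
  have hpa : 1 + (m : ℝ) ^ 2 * s ^ 2 / 2 ≤ p.eval a := by
    rw [hp, eval_comp, hve]
    have hu : (4 - s ^ 2)⁻¹ * (4 + s ^ 2 - 2 * (a - a) ^ 2) = 1 + 2 * s ^ 2 / (4 - s ^ 2) := by
      field_simp; ring
    rw [hu]
    have h5 := (J4694_T (2 * s ^ 2 / (4 - s ^ 2)) (by positivity) m).1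
    refine le_trans ?_ h5
    have h6 : s ^ 2 / 2 ≤ 2 * s ^ 2 / (4 - s ^ 2) := by
      rw [div_le_div_iff₀ (by norm_num) h4]
      nlinarith [sq_nonneg s, sq_nonneg (s ^ 2)]
    have h7 : (0 : ℝ) ≤ (m : ℝ) ^ 2 := by positivity
    nlinarith [mul_le_mul_of_nonneg_left h6 h7]
  have hpk : ∀ k : Fin n, |p.eval ((xs k : ℝ))| ≤ 1 := by
    intro k
    rw [hp, eval_comp]
    apply Chebyshev.abs_eval_T_real_le_one
    rw [hve]
    have h5 := hno k k.2
    have h6 : |(xs k : ℝ) - a| ≤ 2 := by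
      obtain ⟨h1, h2⟩ := (xs k).2
      rw [abs_le]; constructor <;> linarith [ha.1, ha.2]
    have h7 : s ^ 2 ≤ ((xs k : ℝ) - a) ^ 2 := by
      rw [← sq_abs ((xs k : ℝ) - a)]
      exact pow_le_pow_left₀ hs.le h5 2
    have h8 : ((xs k : ℝ) - a) ^ 2 ≤ 4 := by
      rw [← sq_abs ((xs k : ℝ) - a)]
      nlinarith [abs_nonneg ((xs k : ℝ) - a)]
    rw [abs_le]
    constructor
    · rw [inv_mul_eq_div, le_div_iff₀ h4]; linarith
    · rw [inv_mul_eq_div, div_le_iff₀ h4]; linarith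
  have hinj' : Set.InjOn (fun k : Fin n => (xs k : ℝ)) (Finset.univ : Finset (Fin n)) := by
    intro i _ j _ hij
    exact Fin.ext (hinj (Subtype.ext hij))
  have hdeg : p.degree < (Finset.univ : Finset (Fin n)).card := by
    rw [Finset.card_univ, Fintype.card_fin]
    refine lt_of_le_of_lt degree_le_natDegree ?_
    exact_mod_cast lt_of_le_of_lt hpd hm
  have hint := Lagrange.eq_interpolate hinj' hdeg
  have heval : p.eval a = ∑ k : Fin n, p.eval ((xs k : ℝ)) *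
      (lagrangeBasis (fun k : Fin n => (xs k : ℝ)) k).eval a := by
    conv_lhs => rw [hint]
    rw [Lagrange.interpolate_apply, eval_finsetSum]
    apply Finset.sum_congr rfl
    intro k _
    rw [eval_mul, eval_C]
    rfl
  refine hpa.trans ?_
  rw [heval]
  unfold lebesgueFunctionSeq lebesgueFunction
  apply Finset.sum_le_sum
  intro k _
  refine (le_abs_self _).trans ?_
  rw [abs_mul]
  have := mul_le_mul_of_nonneg_right (hpk k)
    (abs_nonneg ((lagrangeBasis (fun k : Fin n => (xs k : ℝ)) k).eval a))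
  rw [one_mul] at this
  exact this

end Pool.Agent.Leb624
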