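import Mathlib
import Pool.Agent.Leb624.Defs
set_option autoImplicit false
namespace Pool.Agent.Leb624
open Finset MeasureTheory

theorem choose_n (xs : ℕ → Set.Icc (-1 : ℝ) 1) (A : Set ℝ) (hA : MeasurableSet A)
    (hpos : 0 < volume A) (δ : ℝ) (hδ : 0 < δ) (θ : ℝ) (hθ : 0 < θ)
    (hnear : ∃ N0 : ℕ, ∀ n ≥ N0, ∀ a ∈ A, ∃ k < n, |a - (xs k : ℝ)| ≤ (n : ℝ) ^ (-θ)) :
    ∃ r0 > 0, ∀ N : ℕ, ∃ n ≥ N, ∀ s : ℝ, (n : ℝ) ^ (-θ) ≤ s → s ≤ r0 →
      (volume (Set.Icc ((xs n : ℝ) - s) ((xs n : ℝ) + s) \ A)).toReal ≤ δ * s := by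
  classical
  -- the sets A_j
  let Aj : ℕ → Set ℝ := fun j => {a | a ∈ A ∧ ∀ r : ℝ, 0 < r → r ≤ 2 / ((j : ℝ) + 1) →
    (volume (Metric.closedBall a r \ A)).toReal ≤ δ / 2 * r}
  have hae : ∀ᵐ a ∂(volume : Measure ℝ), a ∈ A → a ∈ ⋃ j, Aj j := by
    have h0 := Besicovitch.ae_tendsto_measure_inter_div (volume : Measure ℝ) A
    rw [ae_restrict_iff' hA] at h0
    filter_upwards [h0] with a ha haA
    have h1 := ha haA
    have h2 : Filter.Tendsto (fun r => (volume (A ∩ Metric.closedBall a r) /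
        volume (Metric.closedBall a r)).toReal) (nhdsWithin 0 (Set.Ioi 0)) (nhds 1) := by
      have := (ENNReal.tendsto_toReal (ENNReal.one_ne_top)).comp h1
      rw [ENNReal.toReal_one] at this
      exact this
    have h3 : ∀ᶠ r in nhdsWithin (0 : ℝ) (Set.Ioi 0), 1 - δ / 4 < (volume (A ∩ Metric.closedBall a r) /
        volume (Metric.closedBall a r)).toReal :=
      h2.eventually (lt_mem_nhds (by linarith))
    rw [eventually_nhdsWithin_iff, Metric.eventually_nhds_iff] at h3
    obtain ⟨ε, hε, h4⟩ := h3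
    obtain ⟨j, hj⟩ := exists_nat_gt (2 / ε)
    refine Set.mem_iUnion.2 ⟨j, haA, ?_⟩
    intro r hr hr2
    have hjpos : (0 : ℝ) < (j : ℝ) + 1 := by positivity
    have hrε : r < ε := by
      have : 2 / ((j : ℝ) + 1) < ε := by
        rw [div_lt_iff₀ hjpos]
        rw [div_lt_iff₀ hε] at hj
        nlinarith
      linarith
    have h5 := h4 (y := r) (by rw [Real.dist_eq]; simp [abs_of_pos hr, hrε]) hr
    have hvol : volume (Metric.closedBall a r) = ENNReal.ofReal (2 * r) := Real.volume_closedBall a r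
    rw [ENNReal.toReal_div, hvol, ENNReal.toReal_ofReal (by linarith), lt_div_iff₀ (by linarith)] at h5
    have h6 : volume (Metric.closedBall a r ∩ A) + volume (Metric.closedBall a r \ A)
        = volume (Metric.closedBall a r) := measure_inter_add_diff _ hA
    have hf1 : volume (Metric.closedBall a r ∩ A) ≠ ⊤ := by
      refine ne_top_of_le_ne_top ?_ (measure_mono Set.inter_subset_left)
      rw [hvol]; exact ENNReal.ofReal_ne_top
    have hf2 : volume (Metric.closedBall a r \ A) ≠ ⊤ := by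
      refine ne_top_of_le_ne_top ?_ (measure_mono Set.diff_subset)
      rw [hvol]; exact ENNReal.ofReal_ne_top
    have h7 := congrArg ENNReal.toReal h6
    rw [ENNReal.toReal_add hf1 hf2, hvol, ENNReal.toReal_ofReal (by linarith)] at h7
    rw [Set.inter_comm] at h5
    nlinarith
  have hle : volume A ≤ volume (⋃ j, Aj j) := measure_mono_ae (by
    filter_upwards [hae] with a ha
    exact ha)
  have hexj : ∃ j, volume (Aj j) ≠ 0 := by
    by_contra hcon
    push Not at hcon
    have : volume (⋃ j, Aj j) = 0 := measure_iUnion_null hcon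
    rw [this] at hle
    exact absurd hpos (not_lt.2 hle)
  obtain ⟨j, hj⟩ := hexj
  have hjpos : (0 : ℝ) < (j : ℝ) + 1 := by positivity
  refine ⟨1 / ((j : ℝ) + 1), by positivity, ?_⟩
  intro N
  by_contra hcon
  push Not at hcon
  -- points are far
  have hfar : ∀ n : ℕ, N ≤ n → 1 ≤ n → ∀ a ∈ Aj j, (n : ℝ) ^ (-θ) < |(xs n : ℝ) - a| := by
    intro n hn hn1 a ha
    by_contra hlt
    push Not at hlt
    obtain ⟨s, hs1, hs2, hs3⟩ := hcon n hn
    have hnpos : (0 : ℝ) < (n : ℝ) ^ (-θ) := Real.rpow_pos_of_pos (by exact_mod_cast hn1) _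
    have hspos : 0 < s := lt_of_lt_of_le hnpos hs1
    have hsub : Set.Icc ((xs n : ℝ) - s) ((xs n : ℝ) + s) ⊆ Metric.closedBall a (2 * s) := by
      intro y hy
      rw [Metric.mem_closedBall, Real.dist_eq, abs_le]
      rw [abs_le] at hlt
      constructor <;> linarith [hy.1, hy.2, hlt.1, hlt.2]
    have h1 := ha.2 (2 * s) (by linarith) (by
      have : 2 / ((j : ℝ) + 1) = 2 * (1 / ((j : ℝ) + 1)) := by ring
      rw [this]; linarith)
    have h2 : (volume (Set.Icc ((xs n : ℝ) - s) ((xs n : ℝ) + s) \ A)).toReal ≤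
        (volume (Metric.closedBall a (2 * s) \ A)).toReal := by
      apply ENNReal.toReal_mono
      · refine ne_top_of_le_ne_top ?_ (measure_mono Set.diff_subset)
        rw [Real.volume_closedBall]; exact ENNReal.ofReal_ne_top
      · exact measure_mono (Set.diff_subset_diff_left hsub)
    nlinarith
  obtain ⟨N0, hN0⟩ := hnear
  set N' := max N 1 with hN'
  have hcover : ∀ m : ℕ, N0 ≤ m → volume (Aj j) ≤ (N' : ENNReal) * ENNReal.ofReal (2 * (m : ℝ) ^ (-θ)) := by
    intro m hm
    have hsub : Aj j ⊆ ⋃ k ∈ Finset.range N', Metric.closedBall (xs k : ℝ) ((m : ℝ) ^ (-θ)) := by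
      intro a ha
      obtain ⟨k, hk, hk2⟩ := hN0 m hm a ha.1
      have hkN : k < N' := by
        by_contra hge
        push Not at hge
        have hkN : N ≤ k := le_trans (le_max_left _ _) hge
        have hk1 : 1 ≤ k := le_trans (le_max_right _ _) hge
        have h1 := hfar k hkN hk1 a ha
        have h2 : (m : ℝ) ^ (-θ) ≤ (k : ℝ) ^ (-θ) := by
          apply Real.rpow_le_rpow_of_nonpos
          · exact_mod_cast hk1
          · exact_mod_cast hk.le
          · linarith
        rw [abs_sub_comm] at hk2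
        linarith
      refine Set.mem_iUnion₂.2 ⟨k, Finset.mem_range.2 hkN, ?_⟩
      rw [Metric.mem_closedBall, Real.dist_eq]
      exact hk2
    calc volume (Aj j) ≤ volume (⋃ k ∈ Finset.range N', Metric.closedBall (xs k : ℝ) ((m : ℝ) ^ (-θ))) :=
          measure_mono hsub
      _ ≤ ∑ k ∈ Finset.range N', volume (Metric.closedBall (xs k : ℝ) ((m : ℝ) ^ (-θ))) :=
          measure_biUnion_finset_le _ _
      _ = ∑ k ∈ Finset.range N', ENNReal.ofReal (2 * (m : ℝ) ^ (-θ)) := by
          apply Finset.sum_congr rfl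
          intro k _
          exact Real.volume_closedBall _ _
      _ = (N' : ENNReal) * ENNReal.ofReal (2 * (m : ℝ) ^ (-θ)) := by
          rw [Finset.sum_const, Finset.card_range, nsmul_eq_mul]
  have hlim : Filter.Tendsto (fun m : ℕ => (N' : ENNReal) * ENNReal.ofReal (2 * (m : ℝ) ^ (-θ)))
      Filter.atTop (nhds 0) := by
    have h1 : Filter.Tendsto (fun m : ℕ => (m : ℝ) ^ (-θ)) Filter.atTop (nhds 0) :=
      (tendsto_rpow_neg_atTop hθ).comp tendsto_natCast_atTop_atTop
    have h2 : Filter.Tendsto (fun m : ℕ => 2 * (m : ℝ) ^ (-θ)) Filter.atTop (nhds 0) := by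
      simpa using h1.const_mul 2
    have h3 := ENNReal.tendsto_ofReal h2
    rw [ENNReal.ofReal_zero] at h3
    have h4 := ENNReal.Tendsto.const_mul (a := (N' : ENNReal)) h3 (Or.inr (ENNReal.natCast_ne_top _))
    simpa using h4
  have hfinal : volume (Aj j) ≤ 0 := by
    apply ge_of_tendsto hlim
    filter_upwards [Filter.eventually_ge_atTop N0] with m hm
    exact hcover m hm
  exact hj (le_antisymm hfinal bot_le)

end Pool.Agent.Leb624
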