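import Mathlib
set_option autoImplicit false
namespace Pool.Agent.Leb624
open Finset

theorem shell_finite {ι : Type*} (G : Finset ι) (g B : ι → ℝ) (D : ι → ι → ℝ) (C Q : ℝ)
    (hg : ∀ i ∈ G, 0 < g i) (hB : ∀ i ∈ G, 0 < B i) (hD : ∀ i ∈ G, ∀ j ∈ G, 0 < D i j)
    (hsymm : ∀ i j, D i j = D j i) (hQ : 0 ≤ Q)
    (h : ∀ j ∈ G, B j * (∑ i ∈ G, g i / (B i * D i j) + Q) ≤ C) :
    0 ≤ C * ∑ i ∈ G, g i - ∑ i ∈ G, ∑ j ∈ G, g i * g j / D i j ∧
    Q * (∑ i ∈ G, g i) ^ 2 ≤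
      (C * ∑ i ∈ G, g i - ∑ i ∈ G, ∑ j ∈ G, g i * g j / D i j) * ∑ i ∈ G, g i / B i := by
  set J : ℝ := ∑ i ∈ G, ∑ j ∈ G, g i * g j / D i j with hJ
  set X : ℝ := ∑ j ∈ G, ∑ i ∈ G, g j * g i / D i j * (B j / B i) with hX
  set S1 : ℝ := ∑ j ∈ G, g j * B j with hS1
  have hXswap : X = ∑ j ∈ G, ∑ i ∈ G, g j * g i / D i j * (B i / B j) := by
    rw [hX, Finset.sum_comm]
    refine Finset.sum_congr rfl fun i _ => Finset.sum_congr rfl fun j _ => ?_
    rw [hsymm i j, mul_comm (g j) (g i)]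
  have hJswap : J = ∑ j ∈ G, ∑ i ∈ G, g j * g i / D i j := by
    rw [hJ]
    refine Finset.sum_congr rfl fun i _ => Finset.sum_congr rfl fun j _ => ?_
    rw [hsymm i j]
  have hJX : J ≤ X := by
    have h2 : 2 * J ≤ X + X := by
      nth_rewrite 2 [hXswap]
      rw [hX, ← Finset.sum_add_distrib, hJswap, Finset.mul_sum]
      refine Finset.sum_le_sum fun j hj => ?_
      rw [← Finset.sum_add_distrib, Finset.mul_sum]
      refine Finset.sum_le_sum fun i hi => ?_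
      rw [← mul_add, mul_comm 2]
      have hpos : 0 ≤ g j * g i / D i j :=
        div_nonneg (mul_nonneg (hg j hj).le (hg i hi).le) (hD i hi j hj).le
      refine mul_le_mul_of_nonneg_left ?_ hpos
      have hbi := hB i hi
      have hbj := hB j hj
      rw [div_add_div _ _ hbi.ne' hbj.ne', le_div_iff₀ (mul_pos hbi hbj)]
      nlinarith [sq_nonneg (B i - B j)]
    linarith
  have hsum : X + Q * S1 ≤ C * ∑ i ∈ G, g i := by
    have h1 : ∑ j ∈ G, g j * (B j * (∑ i ∈ G, g i / (B i * D i j) + Q)) ≤ ∑ j ∈ G, g j * C :=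
      Finset.sum_le_sum fun j hj => mul_le_mul_of_nonneg_left (h j hj) (hg j hj).le
    have h2 : ∑ j ∈ G, g j * (B j * (∑ i ∈ G, g i / (B i * D i j) + Q)) = X + Q * S1 := by
      rw [hX, hS1, Finset.mul_sum, ← Finset.sum_add_distrib]
      refine Finset.sum_congr rfl fun j hj => ?_
      rw [mul_add, mul_add, Finset.mul_sum, Finset.mul_sum]
      congr 1
      · refine Finset.sum_congr rfl fun i hi => ?_
        have hbi := (hB i hi).ne'
        have hd := (hD i hi j hj).ne'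
        field_simp
      · ring
    rw [h2] at h1
    calc X + Q * S1 ≤ ∑ j ∈ G, g j * C := h1
      _ = C * ∑ i ∈ G, g i := by
        rw [Finset.mul_sum]
        exact Finset.sum_congr rfl fun j _ => mul_comm _ _
  have hS1nn : 0 ≤ S1 := Finset.sum_nonneg fun j hj => mul_nonneg (hg j hj).le (hB j hj).le
  have hQS : Q * S1 ≤ C * ∑ i ∈ G, g i - J := by linarith
  have hQS0 : 0 ≤ Q * S1 := mul_nonneg hQ hS1nn
  refine ⟨by linarith, ?_⟩
  have hCS : (∑ i ∈ G, g i) ^ 2 ≤ S1 * ∑ i ∈ G, g i / B i := by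
    apply Finset.sum_sq_le_sum_mul_sum_of_sq_le_mul
    · intro i hi; exact mul_nonneg (hg i hi).le (hB i hi).le
    · intro i hi; exact div_nonneg (hg i hi).le (hB i hi).le
    · intro i hi
      have hbi := (hB i hi).ne'
      apply le_of_eq
      field_simp
  have hT : 0 ≤ ∑ i ∈ G, g i / B i :=
    Finset.sum_nonneg fun i hi => div_nonneg (hg i hi).le (hB i hi).le
  calc Q * (∑ i ∈ G, g i) ^ 2 ≤ Q * (S1 * ∑ i ∈ G, g i / B i) :=
        mul_le_mul_of_nonneg_left hCS hQ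
    _ = (Q * S1) * ∑ i ∈ G, g i / B i := by ring
    _ ≤ _ := mul_le_mul_of_nonneg_right hQS hT

/-- telescoping: the discrete version of `-G' ≥ max(G, G₀ - G)/a`. -/
theorem telescope (F : ℕ → ℝ) (M : ℕ) (a Δ : ℝ) (ha : 0 < a) (hΔ : 0 < Δ)
    (h1 : ∀ i < M, Δ * F (i + 1) ≤ (a + (i + 1) * Δ) * (F i - F (i + 1)))
    (h2 : ∀ i < M, Δ * (F 0 - F i) ≤ (a + (i + 1) * Δ) * (F i - F (i + 1)))
    (hF : 0 < F 0) (hFM : 0 ≤ F M) (m : ℕ) (hm : m ≤ M) :
    ((a + (m + 1) * Δ) - (a + Δ)) * (a + (M + 1) * Δ) ≤ (a + (m + 1) * Δ) ^ 2 := by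
  have hpos : ∀ k : ℕ, 0 < a + (k + 1) * Δ := fun k => by positivity
  have A1 : ∀ k ≤ M, (a + (k + 1) * Δ) * F k ≤ (a + Δ) * F 0 := by
    intro k
    induction k with
    | zero => intro _; simp
    | succ k ih =>
      intro hk
      have := ih (by omega)
      have h := h1 k (by omega)
      push_cast
      nlinarith
  have A2 : ∀ k, m ≤ k → k ≤ M →
      (F 0 - F m) * (a + (k + 1) * Δ) ≤ (F 0 - F k) * (a + (m + 1) * Δ) := by
    intro k hmk
    induction k, hmk using Nat.le_induction with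
    | base => intro _; exact le_refl _
    | succ k hmk ih =>
      intro hk
      have h3 := ih (by omega)
      have h := h2 k (by omega)
      have hpk := hpos k
      have hpm := hpos m
      push_cast
      -- (F0 - F(k+1)) ≥ (F0 - Fk) (1 + Δ/a_{k+1})
      have h4 : (F 0 - F k) * (a + (k + 1 + 1) * Δ) ≤ (F 0 - F (k + 1)) * (a + (k + 1) * Δ) := by
        nlinarith
      have h5 : (F 0 - F m) * (a + (k + 1) * Δ) * (a + (k + 1 + 1) * Δ) ≤
          (F 0 - F (k + 1)) * (a + (m + 1) * Δ) * (a + (k + 1) * Δ) := by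
        have e1 : 0 ≤ a + ((k : ℝ) + 1 + 1) * Δ := by positivity
        have := mul_le_mul_of_nonneg_right h3 e1
        have := mul_le_mul_of_nonneg_right h4 hpm.le
        nlinarith
      have h6 : ((F 0 - F m) * (a + (k + 1 + 1) * Δ)) * (a + (k + 1) * Δ) ≤
          ((F 0 - F (k + 1)) * (a + (m + 1) * Δ)) * (a + (k + 1) * Δ) := by
        nlinarith
      exact le_of_mul_le_mul_right h6 hpk
  have B1 := A1 m hm
  have B2 := A2 M hm le_rfl
  have hpm := hpos m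
  have hpM := hpos M
  -- F0 * a_m ≥ (F0 - FM) a_m ≥ (F0 - Fm) a_M
  have B3 : (F 0 - F m) * (a + (M + 1) * Δ) ≤ F 0 * (a + (m + 1) * Δ) := by
    nlinarith
  have B4 : (F 0 * ((a + (m + 1) * Δ) - (a + Δ))) * (a + (M + 1) * Δ) ≤
      F 0 * (a + (m + 1) * Δ) ^ 2 := by
    have := mul_le_mul_of_nonneg_right B3 hpm.le
    have h7 : F 0 * ((a + (m + 1) * Δ) - (a + Δ)) ≤ (F 0 - F m) * (a + (m + 1) * Δ) := by
      nlinarith
    have := mul_le_mul_of_nonneg_right h7 hpM.le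
    nlinarith
  have B5 : F 0 * (((a + (m + 1) * Δ) - (a + Δ)) * (a + (M + 1) * Δ)) ≤
      F 0 * (a + (m + 1) * Δ) ^ 2 := by linarith [B4]
  exact le_of_mul_le_mul_left B5 hF

end Pool.Agent.Leb624
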