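import Mathlib
import Pool.Agent.Leb624.Defs
set_option autoImplicit false
namespace Pool.Agent.Leb624
open Finset MeasureTheory

theorem kc (h : ℝ) (hh : 0 < h) : Continuous fun p : ℝ × ℝ => 1 / (|p.1 - p.2| + h) := by
  refine Continuous.div continuous_const (by fun_prop) ?_
  intro p
  positivity

theorem kpos (h : ℝ) (hh : 0 < h) (x y : ℝ) : 0 < 1 / (|x - y| + h) := by positivity

theorem kle (h : ℝ) (hh : 0 < h) (x y : ℝ) : 1 / (|x - y| + h) ≤ 1 / h :=
  one_div_le_one_div_of_le hh (by linarith [abs_nonneg (x - y)])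

theorem kint2 (h : ℝ) (hh : 0 < h) (S T : Set ℝ) (hS : volume S ≠ ⊤) (hT : volume T ≠ ⊤) :
    Integrable (fun p : ℝ × ℝ => 1 / (|p.1 - p.2| + h))
      ((volume.restrict S).prod (volume.restrict T)) := by
  have : IsFiniteMeasure (volume.restrict S) :=
    ⟨by rw [Measure.restrict_apply_univ]; exact hS.lt_top⟩
  have : IsFiniteMeasure (volume.restrict T) :=
    ⟨by rw [Measure.restrict_apply_univ]; exact hT.lt_top⟩
  exact Integrable.of_bound (kc h hh).aestronglyMeasurable (1 / h) (ae_of_all _ fun p => by
    rw [Real.norm_of_nonneg (kpos h hh p.1 p.2).le]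
    exact kle h hh p.1 p.2)

theorem kint1 (h : ℝ) (hh : 0 < h) (x : ℝ) (T : Set ℝ) (hT : volume T ≠ ⊤) :
    IntegrableOn (fun y => 1 / (|x - y| + h)) T := by
  have : IsFiniteMeasure (volume.restrict T) :=
    ⟨by rw [Measure.restrict_apply_univ]; exact hT.lt_top⟩
  have hc : Continuous fun y : ℝ => 1 / (|x - y| + h) := by
    refine Continuous.div continuous_const (by fun_prop) ?_
    intro p
    positivity
  exact Integrable.of_bound hc.aestronglyMeasurable (1 / h) (ae_of_all _ fun p => by
    rw [Real.norm_of_nonneg (kpos h hh x p).le]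
    exact kle h hh x p)

theorem kintJ (h : ℝ) (hh : 0 < h) (S T : Set ℝ) (hS : volume S ≠ ⊤) (hT : volume T ≠ ⊤) :
    IntegrableOn (fun x => ∫ y in T, 1 / (|x - y| + h)) S :=
  (kint2 h hh S T hS hT).integral_prod_left

theorem kinner (p q h x : ℝ) (hh : 0 < h) (hx : x ∈ Set.Icc p q) :
    ∫ y in Set.Icc p q, 1 / (|x - y| + h) =
      (Real.log (x - (p - h)) - Real.log h) + (Real.log ((q + h) - x) - Real.log h) := by
  have hpq : p ≤ q := hx.1.trans hx.2
  have hc : Continuous fun y : ℝ => 1 / (|x - y| + h) := by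
    refine Continuous.div continuous_const (by fun_prop) ?_
    intro p
    positivity
  rw [integral_Icc_eq_integral_Ioc, ← intervalIntegral.integral_of_le hpq,
    ← intervalIntegral.integral_add_adjacent_intervals (b := x) (hc.intervalIntegrable _ _)
      (hc.intervalIntegrable _ _)]
  have h1 : ∫ y in p..x, 1 / (|x - y| + h) = Real.log (x - (p - h)) - Real.log h := by
    have e1 : ∫ y in p..x, 1 / (|x - y| + h) = ∫ y in p..x, (fun u : ℝ => 1 / u) ((x + h) - y) := by
      apply intervalIntegral.integral_congr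
      intro y hy
      rw [Set.uIcc_of_le hx.1] at hy
      simp only
      rw [abs_of_nonneg (by linarith [hy.2])]
      congr 1
      ring
    rw [e1, intervalIntegral.integral_comp_sub_left (fun u : ℝ => 1 / u) (x + h),
      integral_one_div_of_pos (by linarith) (by linarith [hx.1]),
      Real.log_div (by linarith [hx.1]) (by linarith)]
    congr 2 <;> ring
  have h2 : ∫ y in x..q, 1 / (|x - y| + h) = Real.log ((q + h) - x) - Real.log h := by
    have e1 : ∫ y in x..q, 1 / (|x - y| + h) = ∫ y in x..q, (fun u : ℝ => 1 / u) (y - (x - h)) := by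
      apply intervalIntegral.integral_congr
      intro y hy
      rw [Set.uIcc_of_le hx.2] at hy
      simp only
      rw [abs_of_nonpos (by linarith [hy.1])]
      congr 1
      ring
    rw [e1, intervalIntegral.integral_comp_sub_right (fun u : ℝ => 1 / u) (x - h),
      integral_one_div_of_pos (by linarith) (by linarith [hx.2]),
      Real.log_div (by linarith [hx.2]) (by linarith)]
    congr 2 <;> ring
  rw [h1, h2]

theorem J_lower (p q h : ℝ) (hpq : p < q) (hh : 0 < h) (G : Set ℝ) (hG : MeasurableSet G)
    (hGK : G ⊆ Set.Icc p q) :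
    2 * (q - p) * (Real.log ((q - p) / h) - 1)
        - 4 * ((q - p) - (volume G).toReal) * Real.log (1 + (q - p) / h)
      ≤ ∫ x in G, ∫ y in G, 1 / (|x - y| + h) := by
  set K : Set ℝ := Set.Icc p q with hK
  have hKfin : volume K ≠ ⊤ := by rw [hK, Real.volume_Icc]; exact ENNReal.ofReal_ne_top
  have hGfin : volume G ≠ ⊤ := ne_top_of_le_ne_top hKfin (measure_mono hGK)
  have hDfin : volume (K \ G) ≠ ⊤ := ne_top_of_le_ne_top hKfin (measure_mono Set.sdiff_subset)
  have hKm : MeasurableSet K := measurableSet_Icc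
  have hL : 0 < q - p := by linarith
  -- decomposition
  have e1 : ∫ x in G, ∫ y in G, 1 / (|x - y| + h) =
      (∫ x in G, ∫ y in K, 1 / (|x - y| + h)) - ∫ x in G, ∫ y in K \ G, 1 / (|x - y| + h) := by
    rw [← integral_sub (kintJ h hh G K hGfin hKfin) (kintJ h hh G (K \ G) hGfin hDfin)]
    congr 1
    funext x
    rw [setIntegral_sdiff hG (kint1 h hh x K hKfin) hGK]
    ring
  have e2 : ∫ x in G, ∫ y in K, 1 / (|x - y| + h) =
      (∫ x in K, ∫ y in K, 1 / (|x - y| + h)) - ∫ x in K \ G, ∫ y in K, 1 / (|x - y| + h) := by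
    rw [setIntegral_sdiff hG (kintJ h hh K K hKfin hKfin) hGK]
    ring
  have e3 : ∫ x in G, ∫ y in K \ G, 1 / (|x - y| + h) ≤
      ∫ x in K, ∫ y in K \ G, 1 / (|x - y| + h) := by
    apply setIntegral_mono_set (kintJ h hh K (K \ G) hKfin hDfin)
    · refine ae_of_all _ fun x => ?_
      exact integral_nonneg fun y => (kpos h hh x y).le
    · exact (Filter.Eventually.of_forall hGK)
  have e4 : ∫ x in K, ∫ y in K \ G, 1 / (|x - y| + h) =
      ∫ x in K \ G, ∫ y in K, 1 / (|x - y| + h) := by
    rw [integral_integral_swap (f := fun x y : ℝ => 1 / (|x - y| + h))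
      (kint2 h hh K (K \ G) hKfin hDfin)]
    congr 1
    funext x
    congr 1
    funext y
    rw [abs_sub_comm]
  have hDvol : (volume (K \ G)).toReal = (q - p) - (volume G).toReal := by
    rw [measure_sdiff hGK hG.nullMeasurableSet hGfin, ENNReal.toReal_sub_of_le (measure_mono hGK)
      hKfin, hK, Real.volume_Icc, ENNReal.toReal_ofReal hL.le]
  have hbound : ∀ x ∈ K, ‖∫ y in K, 1 / (|x - y| + h)‖ ≤ 2 * Real.log (1 + (q - p) / h) := by
    intro x hx
    rw [Real.norm_of_nonneg (integral_nonneg fun y => (kpos h hh x y).le), kinner p q h x hh hx]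
    have h1 : Real.log (x - (p - h)) ≤ Real.log ((q - p) + h) :=
      Real.log_le_log (by linarith [hx.1]) (by linarith [hx.2])
    have h2 : Real.log ((q + h) - x) ≤ Real.log ((q - p) + h) :=
      Real.log_le_log (by linarith [hx.2]) (by linarith [hx.1])
    have h3 : Real.log (1 + (q - p) / h) = Real.log ((q - p) + h) - Real.log h := by
      rw [← Real.log_div (by linarith) (by linarith)]
      congr 1
      field_simp
      ring
    rw [h3]
    linarith
  have e5 : ∫ x in K \ G, ∫ y in K, 1 / (|x - y| + h) ≤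
      2 * Real.log (1 + (q - p) / h) * ((q - p) - (volume G).toReal) := by
    have h1 := norm_setIntegral_le_of_norm_le_const (μ := volume) (s := K \ G)
      (f := fun x => ∫ y in K, 1 / (|x - y| + h)) hDfin.lt_top (fun x hx => hbound x hx.1)
    have h2 : volume.real (K \ G) = (q - p) - (volume G).toReal := hDvol
    rw [h2] at h1
    exact (le_abs_self _).trans h1
  have e6 : ∫ x in K, ∫ y in K, 1 / (|x - y| + h) =
      2 * (((q - p) + h) * (Real.log ((q - p) + h) - Real.log h) - (q - p)) := by
    have h1 : ∫ x in K, ∫ y in K, 1 / (|x - y| + h) =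
        ∫ x in K, ((Real.log (x - (p - h)) - Real.log h) +
          (Real.log ((q + h) - x) - Real.log h)) :=
      setIntegral_congr_fun hKm fun x hx => kinner p q h x hh hx
    rw [h1, hK, integral_Icc_eq_integral_Ioc, ← intervalIntegral.integral_of_le hpq.le]
    have i1 : IntervalIntegrable (fun x => Real.log (x - (p - h))) volume p q := by
      apply ContinuousOn.intervalIntegrable
      apply ContinuousOn.log (by fun_prop)
      intro x hx
      rw [Set.uIcc_of_le hpq.le] at hx
      linarith [hx.1]
    have i2 : IntervalIntegrable (fun x => Real.log ((q + h) - x)) volume p q := by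
      apply ContinuousOn.intervalIntegrable
      apply ContinuousOn.log (by fun_prop)
      intro x hx
      rw [Set.uIcc_of_le hpq.le] at hx
      linarith [hx.2]
    rw [intervalIntegral.integral_add (i1.sub intervalIntegrable_const)
      (i2.sub intervalIntegrable_const), intervalIntegral.integral_sub i1 intervalIntegrable_const,
      intervalIntegral.integral_sub i2 intervalIntegrable_const,
      intervalIntegral.integral_comp_sub_right (fun u : ℝ => Real.log u) (p - h),
      intervalIntegral.integral_comp_sub_left (fun u : ℝ => Real.log u) (q + h),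
      integral_log, integral_log, intervalIntegral.integral_const]
    rw [show p - (p - h) = h by ring, show q - (p - h) = q - p + h by ring,
      show q + h - q = h by ring, show q + h - p = q - p + h by ring, smul_eq_mul]
    ring
  have e7 : 2 * (q - p) * (Real.log ((q - p) / h) - 1) ≤
      2 * (((q - p) + h) * (Real.log ((q - p) + h) - Real.log h) - (q - p)) := by
    rw [Real.log_div (by linarith) (by linarith)]
    have h1 : Real.log (q - p) ≤ Real.log ((q - p) + h) := Real.log_le_log hL (by linarith)
    have h2 : Real.log h ≤ Real.log ((q - p) + h) := Real.log_le_log hh (by linarith)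
    nlinarith
  rw [e1, e2]
  rw [e4] at e3
  nlinarith

theorem J_discrete (z : ℕ → ℝ) (n : ℕ) (hz : Srt z n) (p q η : ℝ) (hpq : p < q) (hη : 0 < η)
    (G : Finset ℕ) (hG : ∀ i ∈ G, i + 1 < n ∧ p ≤ z i ∧ z (i + 1) ≤ q ∧ gp z i ≤ η) :
    2 * (q - p) * (Real.log ((q - p) / (2 * η)) - 1)
        - 4 * ((q - p) - ∑ i ∈ G, gp z i) * Real.log (1 + (q - p) / (2 * η))
      ≤ ∑ i ∈ G, ∑ j ∈ G, gp z i * gp z j / Dd z i j := by
  set I : ℕ → Set ℝ := fun i => Set.Ico (z i) (z (i + 1)) with hI
  have hh : 0 < 2 * η := by positivity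
  have hIm : ∀ i, MeasurableSet (I i) := fun i => measurableSet_Ico
  have hgp : ∀ i ∈ G, 0 < gp z i := by
    intro i hi
    have := hz i (i + 1) (by omega) (hG i hi).1
    unfold gp
    linarith
  have hle : ∀ i j, i ≤ j → j < n → z i ≤ z j := by
    intro i j hij hj
    rcases hij.eq_or_lt with h | h
    · rw [h]
    · exact (hz i j h hj).le
  have hdisj : Set.Pairwise (↑G) (Function.onFun Disjoint I) := by
    have key : ∀ i ∈ G, ∀ j ∈ G, i < j → Disjoint (I i) (I j) := by
      intro i hi j hj hij
      rw [Set.disjoint_left]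
      intro x hx hx'
      have h1 : z (i + 1) ≤ z j := hle (i + 1) j hij (by have := (hG j hj).1; omega)
      have h2 := hx.2
      have h3 := hx'.1
      linarith
    intro i hi j hj hij
    rcases lt_or_gt_of_ne hij with h | h
    · exact key i hi j hj h
    · exact (key j hj i hi h).symm
  have hvolI : ∀ i ∈ G, (volume (I i)).toReal = gp z i := by
    intro i hi
    simp only [hI]
    rw [Real.volume_Ico, ENNReal.toReal_ofReal]
    · rfl
    · exact (hgp i hi).le
  have hfinI : ∀ i, volume (I i) ≠ ⊤ := by
    intro i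
    simp only [hI]
    rw [Real.volume_Ico]
    exact ENNReal.ofReal_ne_top
  set G' : Set ℝ := ⋃ i ∈ G, I i with hG'
  have hG'm : MeasurableSet G' := Finset.measurableSet_biUnion G fun i _ => hIm i
  have hG'sub : G' ⊆ Set.Icc p q := by
    intro x hx
    simp only [hG', Set.mem_iUnion] at hx
    obtain ⟨i, hi, hxi⟩ := hx
    obtain ⟨h1, h2, h3, h4⟩ := hG i hi
    exact ⟨h2.trans hxi.1, hxi.2.le.trans h3⟩
  have hG'fin : volume G' ≠ ⊤ := by
    refine ne_top_of_le_ne_top ?_ (measure_mono hG'sub)
    rw [Real.volume_Icc]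
    exact ENNReal.ofReal_ne_top
  have hG'vol : (volume G').toReal = ∑ i ∈ G, gp z i := by
    rw [hG', measure_biUnion_finset hdisj (fun i _ => hIm i), ENNReal.toReal_sum fun i _ => hfinI i]
    exact Finset.sum_congr rfl fun i hi => hvolI i hi
  have hJ := J_lower p q (2 * η) hpq hh G' hG'm hG'sub
  rw [hG'vol] at hJ
  refine hJ.trans ?_
  have e1 : ∫ x in G', ∫ y in G', 1 / (|x - y| + 2 * η) =
      ∑ i ∈ G, ∫ x in I i, ∫ y in G', 1 / (|x - y| + 2 * η) := by
    rw [hG']
    exact integral_biUnion_finset G (fun i _ => hIm i) hdisj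
      (fun i _ => kintJ (2 * η) hh (I i) G' (hfinI i) hG'fin)
  rw [e1]
  apply Finset.sum_le_sum
  intro i hi
  have hDd : ∀ j ∈ G, 0 < Dd z i j := by
    intro j hj
    unfold Dd
    rcases le_total i j with h | h
    · apply lt_max_of_lt_right
      have := hz i (j + 1) (by omega) (hG j hj).1
      linarith
    · apply lt_max_of_lt_left
      have := hz j (i + 1) (by omega) (hG i hi).1
      linarith
  have hk : ∀ j ∈ G, ∀ x ∈ I i, ∀ y ∈ I j, 1 / (|x - y| + 2 * η) ≤ 1 / Dd z i j := by
    intro j hj x hx y hy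
    apply one_div_le_one_div_of_le (hDd j hj)
    have hgi := (hG i hi).2.2.2
    have hgj := (hG j hj).2.2.2
    unfold gp at hgi hgj
    unfold Dd
    apply max_le
    · have h1 := le_abs_self (x - y)
      have h2 := hx.1
      have h3 := hy.2
      linarith
    · have h1 := neg_abs_le (x - y)
      have h2 := hx.2
      have h3 := hy.1
      linarith
  have hinner : ∀ x ∈ I i, ‖∫ y in G', 1 / (|x - y| + 2 * η)‖ ≤ ∑ j ∈ G, gp z j / Dd z i j := by
    intro x hx
    rw [hG', integral_biUnion_finset G (fun j _ => hIm j) hdisj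
      (fun j _ => kint1 (2 * η) hh x (I j) (hfinI j))]
    refine (norm_sum_le _ _).trans ?_
    apply Finset.sum_le_sum
    intro j hj
    have h1 := norm_setIntegral_le_of_norm_le_const (μ := volume) (s := I j)
      (f := fun y => 1 / (|x - y| + 2 * η)) (C := 1 / Dd z i j) (hfinI j).lt_top (fun y hy => by
        rw [Real.norm_of_nonneg (kpos (2 * η) hh x y).le]
        exact hk j hj x hx y hy)
    have h2 : volume.real (I j) = gp z j := hvolI j hj
    rw [h2] at h1
    refine h1.trans (le_of_eq ?_)
    ring
  have h1 := norm_setIntegral_le_of_norm_le_const (μ := volume) (s := I i)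
      (f := fun x => ∫ y in G', 1 / (|x - y| + 2 * η)) (hfinI i).lt_top hinner
  have h2 : volume.real (I i) = gp z i := hvolI i hi
  rw [h2] at h1
  refine ((le_abs_self _).trans h1).trans (le_of_eq ?_)
  rw [Finset.sum_mul]
  apply Finset.sum_congr rfl
  intro j _
  ring

end Pool.Agent.Leb624
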