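import Mathlib
import Pool.Agent.Leb624.Defs
import Pool.Agent.Leb624.Bump
import Pool.Agent.Leb624.Bad
import Pool.Agent.Leb624.Finite
import Pool.Agent.Leb624.JInt
set_option autoImplicit false
namespace Pool.Agent.Leb624
open Finset MeasureTheory

theorem gp_pos (z : ℕ → ℝ) (n : ℕ) (hz : Srt z n) (i : ℕ) (hi : i + 1 < n) : 0 < gp z i := by
  have := hz i (i + 1) (Nat.lt_succ_self i) hi
  unfold gp; linarith

theorem Bn_pos (z : ℕ → ℝ) (n : ℕ) (hz : Srt z n) (i : ℕ) (hi : i + 1 < n) : 0 < Bn z n i := by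
  have h1 := gp_pos z n hz i hi
  have h2 := al_pos z n hz i (by omega)
  have h3 := al_pos z n hz (i + 1) hi
  unfold Bn
  have := Real.sqrt_pos.mpr (mul_pos h2 h3)
  positivity

theorem Srt_le (z : ℕ → ℝ) (n : ℕ) (hz : Srt z n) {i j : ℕ} (hij : i ≤ j) (hj : j < n) :
    z i ≤ z j := by
  rcases hij.eq_or_lt with h | h
  · rw [h]
  · exact (hz i j h hj).le

theorem sum_gp_le (z : ℕ → ℝ) (n : ℕ) (hz : Srt z n) (p q : ℝ) (hpq : p ≤ q) (G : Finset ℕ)
    (hG : ∀ i ∈ G, i + 1 < n ∧ p ≤ z i ∧ z (i + 1) ≤ q) :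
    ∑ i ∈ G, gp z i ≤ q - p := by
  rcases G.eq_empty_or_nonempty with h | h
  · subst h; simp; exact hpq
  · have hmin := G.min'_mem h
    have hmax := G.max'_mem h
    have hsub : G ⊆ Ico (G.min' h) (G.max' h + 1) := by
      intro i hi
      rw [mem_Ico]
      exact ⟨G.min'_le i hi, Nat.lt_succ_of_le (G.le_max' i hi)⟩
    have hle : G.min' h ≤ G.max' h + 1 := le_trans (G.min'_le _ hmax) (Nat.le_succ _)
    calc ∑ i ∈ G, gp z i ≤ ∑ i ∈ Ico (G.min' h) (G.max' h + 1), gp z i := by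
          apply Finset.sum_le_sum_of_subset_of_nonneg hsub
          intro i hi _
          rw [mem_Ico] at hi
          have := (hG _ hmax).1
          exact (gp_pos z n hz i (by omega)).le
      _ = z (G.max' h + 1) - z (G.min' h) := by
          unfold gp
          rw [Finset.sum_Ico_eq_sub _ hle, Finset.sum_range_sub, Finset.sum_range_sub]; ring
      _ ≤ q - p := by
          have h1 := (hG _ hmax).2.2
          have h2 := (hG _ hmin).2.1
          linarith

/-- `F(s)`. -/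
noncomputable def Ff (z : ℕ → ℝ) (n : ℕ) (t s : ℝ) : ℝ :=
  ∑ i ∈ (range (n - 1)).filter (fun i => Dt z t i ≤ s), gp z i / (Bn z n i * Dt z t i)

theorem Dt_pos (z : ℕ → ℝ) (n : ℕ) (t : ℝ) (ht : ∀ i < n, z i ≠ t) (i : ℕ)
    (hi : i < n) : 0 < Dt z t i := by
  unfold Dt
  exact lt_of_lt_of_le (abs_pos.mpr (sub_ne_zero.mpr (ht i hi))) (le_max_left _ _)

theorem Fterm_pos (z : ℕ → ℝ) (n : ℕ) (hz : Srt z n) (t : ℝ) (ht : ∀ i < n, z i ≠ t) (i : ℕ)
    (hi : i + 1 < n) : 0 < gp z i / (Bn z n i * Dt z t i) :=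
  div_pos (gp_pos z n hz i hi) (mul_pos (Bn_pos z n hz i hi) (Dt_pos z n t ht i (by omega)))

theorem Ff_mono (z : ℕ → ℝ) (n : ℕ) (hz : Srt z n) (t : ℝ) (ht : ∀ i < n, z i ≠ t) {s s' : ℝ}
    (h : s ≤ s') : Ff z n t s ≤ Ff z n t s' := by
  unfold Ff
  apply Finset.sum_le_sum_of_subset_of_nonneg
  · intro i hi
    rw [mem_filter] at hi ⊢
    exact ⟨hi.1, hi.2.trans h⟩
  · intro i hi _
    rw [mem_filter, mem_range] at hi
    exact (Fterm_pos z n hz t ht i (by omega)).le

theorem Ff_nonneg (z : ℕ → ℝ) (n : ℕ) (hz : Srt z n) (t : ℝ) (ht : ∀ i < n, z i ≠ t) (s : ℝ) :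
    0 ≤ Ff z n t s := by
  unfold Ff
  apply Finset.sum_nonneg
  intro i hi
  rw [mem_filter, mem_range] at hi
  exact (Fterm_pos z n hz t ht i (by omega)).le

/-- general one-time inequality. -/
theorem gen_time (z : ℕ → ℝ) (n : ℕ) (hz : Srt z n) (E om' : ℝ) (j : ℕ)
    (φ : ℕ → ℝ) (hφ : ∀ k < n, 0 ≤ φ k) (hE : ∑ k ∈ range n, om' * φ k / al z n k ≤ E)
    (hom : (399 / 400) * Bn z n j ≤ om') (hj : j + 1 < n) (S : Finset ℕ)
    (hS : ∀ i ∈ S, i + 1 < n) (ψ : ℕ → ℝ)
    (hψ : ∀ i ∈ S, 0 ≤ ψ i ∧ ψ i ≤ φ i ∧ ψ i ≤ φ (i + 1)) :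
    (399 / 400) * Bn z n j * ∑ i ∈ S, ψ i * gp z i / (4 * Bn z n i) ≤ E := by
  have hB := factB z n hz φ hφ
  have h1 : ∑ i ∈ S, ψ i * gp z i / (4 * Bn z n i) ≤
      ∑ i ∈ range (n - 1), min (φ i) (φ (i + 1)) * gp z i / (4 * Bn z n i) := by
    calc ∑ i ∈ S, ψ i * gp z i / (4 * Bn z n i)
        ≤ ∑ i ∈ S, min (φ i) (φ (i + 1)) * gp z i / (4 * Bn z n i) := by
          refine Finset.sum_le_sum fun i hi => ?_
          have hg := gp_pos z n hz i (hS i hi)
          have hb := Bn_pos z n hz i (hS i hi)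
          obtain ⟨_, h2, h3⟩ := hψ i hi
          have := le_min h2 h3
          gcongr
      _ ≤ _ := by
          apply Finset.sum_le_sum_of_subset_of_nonneg
          · intro i hi
            have := hS i hi
            rw [mem_range]; omega
          · intro i hi _
            rw [mem_range] at hi
            have hg := gp_pos z n hz i (by omega)
            have hb := Bn_pos z n hz i (by omega)
            have h4 := hφ i (by omega)
            have h5 := hφ (i + 1) (by omega)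
            have := le_min h4 h5
            positivity
  have hBj := Bn_pos z n hz j hj
  have hs0 : 0 ≤ ∑ i ∈ S, ψ i * gp z i / (4 * Bn z n i) := by
    apply Finset.sum_nonneg
    intro i hi
    have hg := gp_pos z n hz i (hS i hi)
    have hb := Bn_pos z n hz i (hS i hi)
    have := (hψ i hi).1
    positivity
  have hom0 : 0 ≤ om' := le_trans (by positivity) hom
  calc (399 / 400) * Bn z n j * ∑ i ∈ S, ψ i * gp z i / (4 * Bn z n i)
      ≤ om' * ∑ i ∈ S, ψ i * gp z i / (4 * Bn z n i) := mul_le_mul_of_nonneg_right hom hs0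
    _ ≤ om' * ∑ k ∈ range n, φ k / al z n k := mul_le_mul_of_nonneg_left (h1.trans hB) hom0
    _ = ∑ k ∈ range n, om' * φ k / al z n k := by
        rw [Finset.mul_sum]
        exact Finset.sum_congr rfl fun k _ => by ring
    _ ≤ E := hE

theorem Dd_symm (z : ℕ → ℝ) (i j : ℕ) : Dd z i j = Dd z j i := by
  unfold Dd; rw [max_comm]

theorem Dd_pos (z : ℕ → ℝ) (n : ℕ) (hz : Srt z n) (i j : ℕ) (hi : i + 1 < n) (hj : j + 1 < n) :
    0 < Dd z i j := by
  unfold Dd
  rcases le_total i j with h | h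
  · apply lt_of_lt_of_le _ (le_max_right _ _)
    have := hz i (j + 1) (by omega) hj
    linarith
  · apply lt_of_lt_of_le _ (le_max_left _ _)
    have := hz j (i + 1) (by omega) hi
    linarith

/-- distance from a point of gap `j` to an end point of gap `i`. -/
theorem dist_le_Dd (z : ℕ → ℝ) (n : ℕ) (hz : Srt z n) (i j : ℕ) (hi : i + 1 < n)
    (x : ℝ) (hx1 : z j ≤ x) (hx2 : x ≤ z (j + 1)) :
    |x - z i| ≤ Dd z i j ∧ |x - z (i + 1)| ≤ Dd z i j := by
  have hgi := gp_pos z n hz i hi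
  have h1 := le_max_left (z (i + 1) - z j) (z (j + 1) - z i)
  have h2 := le_max_right (z (i + 1) - z j) (z (j + 1) - z i)
  unfold gp at hgi
  unfold Dd
  constructor
  · rw [abs_le]; constructor <;> linarith
  · rw [abs_le]; constructor <;> linarith

theorem time_n (z : ℕ → ℝ) (n : ℕ) (hz : Srt z n) (t : ℝ) (ht : ∀ i < n, z i ≠ t) (E s S0 : ℝ)
    (j : ℕ) (hj : j + 1 < n) (x : ℝ) (hx1 : z j < x) (hx2 : x < z (j + 1))
    (hom : (399 / 400) * Bn z n j ≤ om z n x)
    (hE : ∑ k ∈ range n, om z n x / (|x - z k| * al z n k) ≤ E)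
    (hxt2 : |x - t| ≤ (401 / 400) * s)
    (G : Finset ℕ) (hG : ∀ i ∈ G, i + 1 < n ∧ Dt z t i ≤ 401 * s) :
    Bn z n j * (∑ i ∈ G, gp z i / (Bn z n i * Dd z i j) +
      (Ff z n t S0 - Ff z n t (401 * s))) ≤ 4 * (401 / 399) * E := by
  classical
  set Far : Finset ℕ := (range (n - 1)).filter (fun i => 401 * s < Dt z t i ∧ Dt z t i ≤ S0)
    with hFar
  have hFarI : ∀ i ∈ Far, i + 1 < n ∧ 401 * s < Dt z t i ∧ Dt z t i ≤ S0 := by
    intro i hi
    rw [hFar, mem_filter, mem_range] at hi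
    exact ⟨by omega, hi.2⟩
  have hdisj : Disjoint G Far := by
    rw [Finset.disjoint_left]
    intro i hi hi2
    have h1 := (hG i hi).2
    have h2 := (hFarI i hi2).2.1
    linarith
  have hxz : ∀ k < n, 0 < |x - z k| := by
    intro k hk
    apply abs_pos.mpr
    rw [sub_ne_zero]
    rcases le_or_gt k j with h | h
    · have := Srt_le z n hz h (by omega)
      exact (lt_of_le_of_lt this hx1).ne'
    · have := Srt_le z n hz (show j + 1 ≤ k from h) hk
      exact (lt_of_lt_of_le hx2 this).ne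
  have hF : Ff z n t S0 - Ff z n t (401 * s) ≤ ∑ i ∈ Far, gp z i / (Bn z n i * Dt z t i) := by
    unfold Ff
    rw [sub_le_iff_le_add]
    have hsub : (range (n - 1)).filter (fun i => Dt z t i ≤ S0) ⊆
        Far ∪ (range (n - 1)).filter (fun i => Dt z t i ≤ 401 * s) := by
      intro i hi
      rw [mem_filter] at hi
      rw [mem_union]
      rcases le_or_gt (Dt z t i) (401 * s) with h | h
      · right; rw [mem_filter]; exact ⟨hi.1, h⟩
      · left; rw [hFar, mem_filter]; exact ⟨hi.1, h, hi.2⟩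
    have hdj : Disjoint Far ((range (n - 1)).filter (fun i => Dt z t i ≤ 401 * s)) := by
      rw [Finset.disjoint_left]
      intro i hi hi2
      rw [mem_filter] at hi2
      have := (hFarI i hi).2.1
      linarith [hi2.2]
    rw [← Finset.sum_union hdj]
    apply Finset.sum_le_sum_of_subset_of_nonneg hsub
    intro i hi _
    have hin : i + 1 < n := by
      rw [mem_union] at hi
      rcases hi with h | h
      · exact (hFarI i h).1
      · rw [mem_filter, mem_range] at h; omega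
    exact (Fterm_pos z n hz t ht i hin).le
  have hkey := gen_time z n hz E (om z n x) j (fun k => 1 / |x - z k|)
    (fun k _ => by positivity)
    (by
      refine le_trans (le_of_eq ?_) hE
      refine Finset.sum_congr rfl fun k hk => ?_
      have h1 := (hxz k (mem_range.mp hk)).ne'
      have h2 := (al_pos z n hz k (mem_range.mp hk)).ne'
      field_simp)
    hom hj (G ∪ Far)
    (by
      intro i hi
      rcases mem_union.mp hi with h | h
      · exact (hG i h).1
      · exact (hFarI i h).1)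
    (fun i => if i ∈ G then (400 / 401) / Dd z i j else (400 / 401) / Dt z t i)
    (by
      intro i hi
      by_cases hiG : i ∈ G
      · simp only [hiG, if_true]
        have hin := (hG i hiG).1
        obtain ⟨h1, h2⟩ := dist_le_Dd z n hz i j hin x hx1.le hx2.le
        have hD := Dd_pos z n hz i j hin hj
        have p1 := hxz i (by omega)
        have p2 := hxz (i + 1) hin
        refine ⟨by positivity, ?_, ?_⟩
        · rw [div_le_div_iff₀ hD p1]; nlinarith
        · rw [div_le_div_iff₀ hD p2]; nlinarith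
      · simp only [hiG, if_false]
        have hiF : i ∈ Far := (mem_union.mp hi).resolve_left hiG
        obtain ⟨hin, hf1, _⟩ := hFarI i hiF
        have hD := Dt_pos z n t ht i (by omega)
        have p1 := hxz i (by omega)
        have p2 := hxz (i + 1) hin
        have q1 : |z i - t| ≤ Dt z t i := le_max_left _ _
        have q2 : |z (i + 1) - t| ≤ Dt z t i := le_max_right _ _
        have r1 : |x - z i| ≤ |x - t| + |z i - t| := by
          have := abs_sub_le x t (z i)
          rwa [abs_sub_comm t (z i)] at this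
        have r2 : |x - z (i + 1)| ≤ |x - t| + |z (i + 1) - t| := by
          have := abs_sub_le x t (z (i + 1))
          rwa [abs_sub_comm t (z (i + 1))] at this
        refine ⟨by positivity, ?_, ?_⟩
        · rw [div_le_div_iff₀ hD p1]; linarith
        · rw [div_le_div_iff₀ hD p2]; linarith)
  rw [Finset.sum_union hdisj] at hkey
  have e1 : ∑ i ∈ G, (if i ∈ G then (400 / 401) / Dd z i j else (400 / 401) / Dt z t i) * gp z i /
      (4 * Bn z n i) = (100 / 401) * ∑ i ∈ G, gp z i / (Bn z n i * Dd z i j) := by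
    rw [Finset.mul_sum]
    refine Finset.sum_congr rfl fun i hi => ?_
    rw [if_pos hi]
    have h1 := (Bn_pos z n hz i (hG i hi).1).ne'
    have h2 := (Dd_pos z n hz i j (hG i hi).1 hj).ne'
    field_simp
    ring
  have e2 : ∑ i ∈ Far, (if i ∈ G then (400 / 401) / Dd z i j else (400 / 401) / Dt z t i) * gp z i /
      (4 * Bn z n i) = (100 / 401) * ∑ i ∈ Far, gp z i / (Bn z n i * Dt z t i) := by
    rw [Finset.mul_sum]
    refine Finset.sum_congr rfl fun i hi => ?_
    have hni : i ∉ G := fun h => (Finset.disjoint_left.mp hdisj h) hi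
    rw [if_neg hni]
    have h1 := (Bn_pos z n hz i (hFarI i hi).1).ne'
    have h2 := (Dt_pos z n t ht i (by have := (hFarI i hi).1; omega)).ne'
    field_simp
    ring
  rw [e1, e2] at hkey
  have hBj := Bn_pos z n hz j hj
  have := mul_le_mul_of_nonneg_left hF hBj.le
  nlinarith

theorem time_n1 (z : ℕ → ℝ) (n : ℕ) (hz : Srt z n) (t : ℝ) (ht : ∀ i < n, z i ≠ t) (E s : ℝ)
    (hs : 0 < s) (j : ℕ) (hj : j + 1 < n) (x : ℝ) (hx1 : z j < x) (hx2 : x < z (j + 1))
    (hom : (399 / 400) * Bn z n j ≤ om z n x)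
    (hE : ∑ k ∈ range n, om z n x * |x - t| / (|x - z k| * |z k - t| * al z n k) ≤ E)
    (hxt1 : s ≤ |x - t|)
    (G : Finset ℕ) (hG : ∀ i ∈ G, i + 1 < n ∧ s < Dt z t i ∧ Dt z t i ≤ (401 / 400) * s) :
    Bn z n j * (∑ i ∈ G, gp z i / (Bn z n i * Dd z i j) + Ff z n t (s / 400))
      ≤ 4 * (401 / 399) * E := by
  classical
  set Near : Finset ℕ := (range (n - 1)).filter (fun i => Dt z t i ≤ s / 400) with hNear
  have hNearI : ∀ i ∈ Near, i + 1 < n ∧ Dt z t i ≤ s / 400 := by
    intro i hi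
    rw [hNear, mem_filter, mem_range] at hi
    exact ⟨by omega, hi.2⟩
  have hdisj : Disjoint G Near := by
    rw [Finset.disjoint_left]
    intro i hi hi2
    have h1 := (hG i hi).2.1
    have h2 := (hNearI i hi2).2
    linarith
  have hxz : ∀ k < n, 0 < |x - z k| := by
    intro k hk
    apply abs_pos.mpr
    rw [sub_ne_zero]
    rcases le_or_gt k j with h | h
    · have := Srt_le z n hz h (by omega)
      exact (lt_of_le_of_lt this hx1).ne'
    · have := Srt_le z n hz (show j + 1 ≤ k from h) hk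
      exact (lt_of_lt_of_le hx2 this).ne
  have hzt : ∀ k < n, 0 < |z k - t| := fun k hk => abs_pos.mpr (sub_ne_zero.mpr (ht k hk))
  have hxt0 : 0 < |x - t| := lt_of_lt_of_le hs hxt1
  have hkey := gen_time z n hz E (om z n x) j (fun k => |x - t| / (|x - z k| * |z k - t|))
    (fun k _ => by positivity)
    (by
      refine le_trans (le_of_eq ?_) hE
      refine Finset.sum_congr rfl fun k hk => ?_
      have h1 := (hxz k (mem_range.mp hk)).ne'
      have h2 := (al_pos z n hz k (mem_range.mp hk)).ne'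
      have h3 := (hzt k (mem_range.mp hk)).ne'
      field_simp)
    hom hj (G ∪ Near)
    (by
      intro i hi
      rcases mem_union.mp hi with h | h
      · exact (hG i h).1
      · exact (hNearI i h).1)
    (fun i => if i ∈ G then (400 / 401) / Dd z i j else (400 / 401) / Dt z t i)
    (by
      intro i hi
      by_cases hiG : i ∈ G
      · simp only [hiG, if_true]
        obtain ⟨hin, hd1, hd2⟩ := hG i hiG
        obtain ⟨h1, h2⟩ := dist_le_Dd z n hz i j hin x hx1.le hx2.le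
        have hD := Dd_pos z n hz i j hin hj
        have p1 := hxz i (by omega)
        have p2 := hxz (i + 1) hin
        have o1 := hzt i (by omega)
        have o2 := hzt (i + 1) hin
        have q1 : |z i - t| ≤ (401 / 400) * s := (le_max_left _ _).trans hd2
        have q2 : |z (i + 1) - t| ≤ (401 / 400) * s := (le_max_right _ _).trans hd2
        refine ⟨by positivity, ?_, ?_⟩
        · rw [div_le_div_iff₀ hD (mul_pos p1 o1)]
          have a1 : |x - z i| * |z i - t| ≤ Dd z i j * ((401 / 400) * s) :=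
            mul_le_mul h1 q1 o1.le hD.le
          have a2 : Dd z i j * s ≤ Dd z i j * |x - t| := mul_le_mul_of_nonneg_left hxt1 hD.le
          linarith
        · rw [div_le_div_iff₀ hD (mul_pos p2 o2)]
          have a1 : |x - z (i + 1)| * |z (i + 1) - t| ≤ Dd z i j * ((401 / 400) * s) :=
            mul_le_mul h2 q2 o2.le hD.le
          have a2 : Dd z i j * s ≤ Dd z i j * |x - t| := mul_le_mul_of_nonneg_left hxt1 hD.le
          linarith
      · simp only [hiG, if_false]
        have hiF : i ∈ Near := (mem_union.mp hi).resolve_left hiG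
        obtain ⟨hin, hf1⟩ := hNearI i hiF
        have hD := Dt_pos z n t ht i (by omega)
        have p1 := hxz i (by omega)
        have p2 := hxz (i + 1) hin
        have o1 := hzt i (by omega)
        have o2 := hzt (i + 1) hin
        have q1 : |z i - t| ≤ Dt z t i := le_max_left _ _
        have q2 : |z (i + 1) - t| ≤ Dt z t i := le_max_right _ _
        have r1 : |x - z i| ≤ |x - t| + |z i - t| := by
          have := abs_sub_le x t (z i)
          rwa [abs_sub_comm t (z i)] at this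
        have r2 : |x - z (i + 1)| ≤ |x - t| + |z (i + 1) - t| := by
          have := abs_sub_le x t (z (i + 1))
          rwa [abs_sub_comm t (z (i + 1))] at this
        refine ⟨by positivity, ?_, ?_⟩
        · rw [div_le_div_iff₀ hD (mul_pos p1 o1)]
          have a1 : |x - z i| ≤ (401 / 400) * |x - t| := by linarith
          have a2 : |x - z i| * |z i - t| ≤ ((401 / 400) * |x - t|) * Dt z t i :=
            mul_le_mul a1 q1 o1.le (by positivity)
          linarith
        · rw [div_le_div_iff₀ hD (mul_pos p2 o2)]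
          have a1 : |x - z (i + 1)| ≤ (401 / 400) * |x - t| := by linarith
          have a2 : |x - z (i + 1)| * |z (i + 1) - t| ≤ ((401 / 400) * |x - t|) * Dt z t i :=
            mul_le_mul a1 q2 o2.le (by positivity)
          linarith)
  rw [Finset.sum_union hdisj] at hkey
  have e1 : ∑ i ∈ G, (if i ∈ G then (400 / 401) / Dd z i j else (400 / 401) / Dt z t i) * gp z i /
      (4 * Bn z n i) = (100 / 401) * ∑ i ∈ G, gp z i / (Bn z n i * Dd z i j) := by
    rw [Finset.mul_sum]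
    refine Finset.sum_congr rfl fun i hi => ?_
    rw [if_pos hi]
    have h1 := (Bn_pos z n hz i (hG i hi).1).ne'
    have h2 := (Dd_pos z n hz i j (hG i hi).1 hj).ne'
    field_simp
    ring
  have e2 : ∑ i ∈ Near, (if i ∈ G then (400 / 401) / Dd z i j else (400 / 401) / Dt z t i) *
      gp z i / (4 * Bn z n i) = (100 / 401) * Ff z n t (s / 400) := by
    unfold Ff
    rw [Finset.mul_sum]
    refine Finset.sum_congr rfl fun i hi => ?_
    have hni : i ∉ G := fun h => (Finset.disjoint_left.mp hdisj h) hi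
    rw [if_neg hni]
    have h1 := (Bn_pos z n hz i (hNearI i hi).1).ne'
    have h2 := (Dt_pos z n t ht i (by have := (hNearI i hi).1; omega)).ne'
    field_simp
    ring
  rw [e1, e2] at hkey
  linarith

/-- the coefficient in the shell lemma. -/
noncomputable def Av (E ν s : ℝ) : ℝ :=
  4 * (401 / 399) * E + 4 - (499 / 250) * Real.log (s / (3200 * ν))

theorem one_side (z : ℕ → ℝ) (n : ℕ) (hz : Srt z n) (t : ℝ) (ht : ∀ i < n, z i ≠ t)
    (A : Set ℝ) (hA : MeasurableSet A) (E ν s S0 : ℝ) (hν : 0 < ν) (hs : 0 < s) (hE : 0 ≤ E)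
    (hnear : ∀ a ∈ A, ∃ i < n, |a - z i| ≤ ν)
    (H1 : ∀ x ∈ A, ∑ k ∈ range n, om z n x / (|x - z k| * al z n k) ≤ E)
    (H2 : ∀ x ∈ A,
      ∑ k ∈ range n, om z n x * |x - t| / (|x - z k| * |z k - t| * al z n k) ≤ E)
    (p q : ℝ) (hpq : q - p = s / 400)
    (hK : ∀ y ∈ Set.Icc p q, s ≤ |y - t| ∧ |y - t| ≤ (401 / 400) * s)
    (hbad : 40 * (volume (Set.Icc p q \ A)).toReal + 4 * ν ≤ s / 400000)
    (Q : ℝ) (hQ0 : 0 ≤ Q)
    (hQ : Q ≤ Ff z n t (s / 400) ∨ Q ≤ Ff z n t S0 - Ff z n t (401 * s)) :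
    ∃ G : Finset ℕ, G.Nonempty ∧ (∀ i ∈ G, i + 1 < n ∧ p ≤ z i ∧ z (i + 1) ≤ q) ∧
      0 ≤ Av E ν s ∧
      Q * (999 / 1000) ^ 2 / 401 ≤ Av E ν s * ∑ i ∈ G, gp z i / (Bn z n i * Dt z t i) := by
  classical
  have hbump := fun i (hi : i + 1 < n) => bump z n hz i hi
  choose! P R hP hR hPR hom using hbump
  set G : Finset ℕ := (range n).filter (fun i => i + 1 < n ∧ p ≤ z i ∧ z (i + 1) ≤ q ∧
    gp z i ≤ 4 * ν ∧ ∃ x ∈ Set.Icc (P i) (R i), x ∈ A) with hGdef
  have hGm : ∀ i, i ∈ G ↔ (i + 1 < n ∧ p ≤ z i ∧ z (i + 1) ≤ q ∧ gp z i ≤ 4 * ν ∧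
      ∃ x ∈ Set.Icc (P i) (R i), x ∈ A) := by
    intro i
    rw [hGdef, mem_filter, mem_range]
    constructor
    · exact fun h => h.2
    · exact fun h => ⟨by omega, h⟩
  have hpq' : p < q := by linarith
  have hbm := bad_measure z n hz A hA ν p q hν hpq' hnear P R
    (fun i hi => ⟨hP i hi, hR i hi, hPR i hi⟩) G hGm
  set W : ℝ := ∑ i ∈ G, gp z i with hW
  set L : ℝ := q - p with hL
  have hLs : s = 400 * L := by linarith
  have hLpos : 0 < L := by linarith
  have hW1 : L - W ≤ L / 1000 := by linarith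
  have hW2 : W ≤ L := sum_gp_le z n hz p q hpq'.le G
    (fun i hi => ⟨((hGm i).1 hi).1, ((hGm i).1 hi).2.1, ((hGm i).1 hi).2.2.1⟩)
  have hGne : G.Nonempty := by
    rw [Finset.nonempty_iff_ne_empty]
    intro h
    rw [h, Finset.sum_empty] at hW
    linarith
  -- distances to t
  have hDt : ∀ i ∈ G, s < Dt z t i ∧ Dt z t i ≤ (401 / 400) * s := by
    intro i hi
    obtain ⟨h1, h2, h3, _, _⟩ := (hGm i).1 hi
    have hg := gp_pos z n hz i h1
    unfold gp at hg
    have k1 := hK (z i) ⟨h2, by linarith⟩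
    have k2 := hK (z (i + 1)) ⟨by linarith, h3⟩
    refine ⟨?_, max_le k1.2 k2.2⟩
    by_contra hcon
    push Not at hcon
    unfold Dt at hcon
    have c1 := (le_max_left |z i - t| |z (i + 1) - t|).trans hcon
    have c2 := (le_max_right |z i - t| |z (i + 1) - t|).trans hcon
    have k3 := (hK ((z i + z (i + 1)) / 2) ⟨by linarith, by linarith⟩).1
    have d1 : (z i - t) ^ 2 ≤ s ^ 2 := by
      rw [← sq_abs (z i - t)]
      exact pow_le_pow_left₀ (abs_nonneg _) c1 2
    have d2 : (z (i + 1) - t) ^ 2 ≤ s ^ 2 := by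
      rw [← sq_abs (z (i + 1) - t)]
      exact pow_le_pow_left₀ (abs_nonneg _) c2 2
    have d3 : s ^ 2 ≤ ((z i + z (i + 1)) / 2 - t) ^ 2 := by
      rw [← sq_abs ((z i + z (i + 1)) / 2 - t)]
      exact pow_le_pow_left₀ hs.le k3 2
    nlinarith [mul_pos hg hg]
  -- the time inequality
  have htime : ∀ j ∈ G, Bn z n j * (∑ i ∈ G, gp z i / (Bn z n i * Dd z i j) + Q) ≤
      4 * (401 / 399) * E := by
    intro j hj
    obtain ⟨h1, h2, h3, _, x, hx, hxA⟩ := (hGm j).1 hj
    have hx1 : z j < x := lt_of_lt_of_le (hP j h1) hx.1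
    have hx2 : x < z (j + 1) := lt_of_le_of_lt hx.2 (hR j h1)
    have hxK := hK x ⟨by linarith, by linarith⟩
    have hBj := Bn_pos z n hz j h1
    rcases hQ with hQ | hQ
    · have := time_n1 z n hz t ht E s hs j h1 x hx1 hx2 (hom j h1 x hx) (H2 x hxA) hxK.1 G
        (fun i hi => ⟨((hGm i).1 hi).1, hDt i hi⟩)
      refine le_trans (mul_le_mul_of_nonneg_left ?_ hBj.le) this
      linarith
    · have := time_n z n hz t ht E s S0 j h1 x hx1 hx2 (hom j h1 x hx) (H1 x hxA) hxK.2 G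
        (fun i hi => ⟨((hGm i).1 hi).1, by have := (hDt i hi).2; linarith⟩)
      refine le_trans (mul_le_mul_of_nonneg_left ?_ hBj.le) this
      linarith
  obtain ⟨hR0, hRQ⟩ := shell_finite G (gp z) (Bn z n) (Dd z) (4 * (401 / 399) * E) Q
    (fun i hi => gp_pos z n hz i ((hGm i).1 hi).1)
    (fun i hi => Bn_pos z n hz i ((hGm i).1 hi).1)
    (fun i hi j hj => Dd_pos z n hz i j ((hGm i).1 hi).1 ((hGm j).1 hj).1)
    (Dd_symm z) hQ0 htime
  have hJ := J_discrete z n hz p q (4 * ν) hpq' (by positivity) G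
    (fun i hi => ⟨((hGm i).1 hi).1, ((hGm i).1 hi).2.1, ((hGm i).1 hi).2.2.1,
      ((hGm i).1 hi).2.2.2.1⟩)
  rw [← hW] at hR0 hRQ hJ
  rw [← hL] at hJ
  set J : ℝ := ∑ i ∈ G, ∑ j ∈ G, gp z i * gp z j / Dd z i j with hJdef
  have hX1 : 1 ≤ L / (2 * (4 * ν)) := by
    rw [le_div_iff₀ (by positivity)]
    have : 0 ≤ (volume (Set.Icc p q \ A)).toReal := ENNReal.toReal_nonneg
    linarith
  set X : ℝ := L / (2 * (4 * ν)) with hXdef
  have hX0 : 0 < X := by linarith
  have hlogX : 0 ≤ Real.log X := Real.log_nonneg hX1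
  have hlog2 : Real.log (1 + X) ≤ Real.log X + 1 := by
    have e : 1 + X = X * (1 + 1 / X) := by
      rw [mul_add, mul_one_div_cancel hX0.ne']; ring
    rw [e, Real.log_mul hX0.ne' (by positivity)]
    have h1 : Real.log (1 + 1 / X) ≤ 1 / X := by
      have := Real.log_le_sub_one_of_pos (show 0 < 1 + 1 / X by positivity)
      linarith
    have h2 : 1 / X ≤ 1 := by rw [div_le_one hX0]; exact hX1
    linarith
  have hlog0 : 0 ≤ Real.log (1 + X) := Real.log_nonneg (by linarith)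
  have hsX : s / (3200 * ν) = X := by
    rw [hXdef, hLs]; field_simp; ring
  have hRle : 4 * (401 / 399) * E * W - J ≤ L * Av E ν s := by
    unfold Av
    rw [hsX]
    have a1 : 4 * (401 / 399) * E * W ≤ 4 * (401 / 399) * E * L :=
      mul_le_mul_of_nonneg_left hW2 (by positivity)
    have a2 : 4 * (L - W) * Real.log (1 + X) ≤ 4 * (L / 1000) * (Real.log X + 1) :=
      mul_le_mul (by linarith) hlog2 hlog0 (by linarith)
    nlinarith
  have hAv : 0 ≤ Av E ν s := by
    have : 0 ≤ L * Av E ν s := hR0.trans hRle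
    exact nonneg_of_mul_nonneg_right this hLpos
  refine ⟨G, hGne, fun i hi => ⟨((hGm i).1 hi).1, ((hGm i).1 hi).2.1, ((hGm i).1 hi).2.2.1⟩,
    hAv, ?_⟩
  set Y : ℝ := ∑ i ∈ G, gp z i / (Bn z n i * Dt z t i) with hY
  have hYle : ∑ i ∈ G, gp z i / Bn z n i ≤ 401 * L * Y := by
    rw [hY, Finset.mul_sum]
    refine Finset.sum_le_sum fun i hi => ?_
    have hb := Bn_pos z n hz i ((hGm i).1 hi).1
    have hg := gp_pos z n hz i ((hGm i).1 hi).1
    have hd := (hDt i hi).2
    have hd0 : 0 < Dt z t i := lt_trans hs (hDt i hi).1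
    rw [div_le_iff₀ hb]
    have : 401 * L * (gp z i / (Bn z n i * Dt z t i)) * Bn z n i =
        gp z i * (401 * L / Dt z t i) := by
      field_simp
    rw [this]
    have : 1 ≤ 401 * L / Dt z t i := by
      rw [le_div_iff₀ hd0]; linarith
    nlinarith
  have hY0 : 0 ≤ ∑ i ∈ G, gp z i / Bn z n i := Finset.sum_nonneg fun i hi =>
    div_nonneg (gp_pos z n hz i ((hGm i).1 hi).1).le (Bn_pos z n hz i ((hGm i).1 hi).1).le
  have b1 : Q * (999 / 1000 * L) ^ 2 ≤ Q * W ^ 2 := by
    apply mul_le_mul_of_nonneg_left _ hQ0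
    apply pow_le_pow_left₀ (by positivity)
    linarith
  have b2 : (4 * (401 / 399) * E * W - J) * ∑ i ∈ G, gp z i / Bn z n i ≤
      (L * Av E ν s) * (401 * L * Y) :=
    mul_le_mul hRle hYle hY0 (by positivity)
  have b3 : L ^ 2 * (Q * (999 / 1000) ^ 2) ≤ L ^ 2 * (401 * (Av E ν s * Y)) := by
    calc L ^ 2 * (Q * (999 / 1000) ^ 2) = Q * (999 / 1000 * L) ^ 2 := by ring
      _ ≤ _ := b1
      _ ≤ _ := hRQ
      _ ≤ _ := b2
      _ = _ := by ring
  have b4 := le_of_mul_le_mul_left b3 (by positivity)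
  linarith

/-- both sides together. -/
theorem shell (z : ℕ → ℝ) (n : ℕ) (hz : Srt z n) (t : ℝ) (ht : ∀ i < n, z i ≠ t)
    (A : Set ℝ) (hA : MeasurableSet A) (E ν s S0 : ℝ) (hν : 0 < ν) (hs : 0 < s) (hE : 0 ≤ E)
    (hnear : ∀ a ∈ A, ∃ i < n, |a - z i| ≤ ν)
    (H1 : ∀ x ∈ A, ∑ k ∈ range n, om z n x / (|x - z k| * al z n k) ≤ E)
    (H2 : ∀ x ∈ A,
      ∑ k ∈ range n, om z n x * |x - t| / (|x - z k| * |z k - t| * al z n k) ≤ E)
    (hbad : 40 * (volume (Set.Icc (t - (401 / 400) * s) (t + (401 / 400) * s) \ A)).toReal +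
      4 * ν ≤ s / 400000)
    (Q : ℝ) (hQ0 : 0 ≤ Q)
    (hQ : Q ≤ Ff z n t (s / 400) ∨ Q ≤ Ff z n t S0 - Ff z n t (401 * s)) :
    0 ≤ Av E ν s ∧ Ff z n t s < Ff z n t ((401 / 400) * s) ∧
      2 * Q * (999 / 1000) ^ 2 / 401 ≤
        Av E ν s * (Ff z n t ((401 / 400) * s) - Ff z n t s) := by
  classical
  have hfin : volume (Set.Icc (t - (401 / 400) * s) (t + (401 / 400) * s) \ A) ≠ ⊤ :=
    ne_top_of_le_ne_top (by rw [Real.volume_Icc]; exact ENNReal.ofReal_ne_top)
      (measure_mono Set.sdiff_subset)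
  have hm : ∀ p q : ℝ, t - (401 / 400) * s ≤ p → q ≤ t + (401 / 400) * s →
      40 * (volume (Set.Icc p q \ A)).toReal + 4 * ν ≤ s / 400000 := by
    intro p q hp hq
    have : (volume (Set.Icc p q \ A)).toReal ≤
        (volume (Set.Icc (t - (401 / 400) * s) (t + (401 / 400) * s) \ A)).toReal := by
      apply ENNReal.toReal_mono hfin
      apply measure_mono
      exact Set.sdiff_subset_sdiff_left (Set.Icc_subset_Icc hp hq)
    linarith
  obtain ⟨G1, hne1, hG1, hAv, hI1⟩ := one_side z n hz t ht A hA E ν s S0 hν hs hE hnear H1 H2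
    (t + s) (t + (401 / 400) * s) (by ring)
    (by
      intro y hy
      rw [abs_of_nonneg (by linarith [hy.1])]
      constructor <;> linarith [hy.1, hy.2])
    (hm _ _ (by linarith) le_rfl) Q hQ0 hQ
  obtain ⟨G2, hne2, hG2, _, hI2⟩ := one_side z n hz t ht A hA E ν s S0 hν hs hE hnear H1 H2
    (t - (401 / 400) * s) (t - s) (by ring)
    (by
      intro y hy
      rw [abs_of_nonpos (by linarith [hy.2])]
      constructor <;> linarith [hy.1, hy.2])
    (hm _ _ le_rfl (by linarith)) Q hQ0 hQ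
  have hD1 : ∀ i ∈ G1, s < Dt z t i ∧ Dt z t i ≤ (401 / 400) * s := by
    intro i hi
    obtain ⟨h1, h2, h3⟩ := hG1 i hi
    have hg := gp_pos z n hz i h1
    unfold gp at hg
    constructor
    · refine lt_of_lt_of_le ?_ (le_max_right _ _)
      rw [abs_of_nonneg (by linarith)]; linarith
    · apply max_le
      · rw [abs_of_nonneg (by linarith)]; linarith
      · rw [abs_of_nonneg (by linarith)]; linarith
  have hD2 : ∀ i ∈ G2, s < Dt z t i ∧ Dt z t i ≤ (401 / 400) * s := by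
    intro i hi
    obtain ⟨h1, h2, h3⟩ := hG2 i hi
    have hg := gp_pos z n hz i h1
    unfold gp at hg
    constructor
    · refine lt_of_lt_of_le ?_ (le_max_left _ _)
      rw [abs_of_nonpos (by linarith)]; linarith
    · apply max_le
      · rw [abs_of_nonpos (by linarith)]; linarith
      · rw [abs_of_nonpos (by linarith)]; linarith
  have hdisj : Disjoint G1 G2 := by
    rw [Finset.disjoint_left]
    intro i h1 h2
    have k1 := hG1 i h1
    have k2 := hG2 i h2
    have hg := gp_pos z n hz i k1.1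
    unfold gp at hg
    linarith [k1.2.1, k2.2.2]
  have hbase : Disjoint ((range (n - 1)).filter (fun i => Dt z t i ≤ s)) (G1 ∪ G2) := by
    rw [Finset.disjoint_left]
    intro i h1 h2
    rw [mem_filter] at h1
    rcases mem_union.mp h2 with h | h
    · have := (hD1 i h).1; linarith [h1.2]
    · have := (hD2 i h).1; linarith [h1.2]
  have hsub : (range (n - 1)).filter (fun i => Dt z t i ≤ s) ∪ (G1 ∪ G2) ⊆
      (range (n - 1)).filter (fun i => Dt z t i ≤ (401 / 400) * s) := by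
    intro i hi
    rw [mem_filter, mem_range]
    rcases mem_union.mp hi with h | h
    · rw [mem_filter, mem_range] at h
      exact ⟨h.1, by linarith [h.2]⟩
    · rcases mem_union.mp h with h | h
      · exact ⟨by have := (hG1 i h).1; omega, (hD1 i h).2⟩
      · exact ⟨by have := (hG2 i h).1; omega, (hD2 i h).2⟩
  have hle : Ff z n t s + (∑ i ∈ G1, gp z i / (Bn z n i * Dt z t i) +
      ∑ i ∈ G2, gp z i / (Bn z n i * Dt z t i)) ≤ Ff z n t ((401 / 400) * s) := by
    unfold Ff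
    rw [← Finset.sum_union hdisj, ← Finset.sum_union hbase]
    apply Finset.sum_le_sum_of_subset_of_nonneg hsub
    intro i hi _
    rw [mem_filter, mem_range] at hi
    exact (Fterm_pos z n hz t ht i (by omega)).le
  have hpos1 : 0 < ∑ i ∈ G1, gp z i / (Bn z n i * Dt z t i) :=
    Finset.sum_pos (fun i hi => Fterm_pos z n hz t ht i (hG1 i hi).1) hne1
  have hpos2 : 0 < ∑ i ∈ G2, gp z i / (Bn z n i * Dt z t i) :=
    Finset.sum_pos (fun i hi => Fterm_pos z n hz t ht i (hG2 i hi).1) hne2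
  refine ⟨hAv, by linarith, ?_⟩
  have : Av E ν s * (∑ i ∈ G1, gp z i / (Bn z n i * Dt z t i) +
      ∑ i ∈ G2, gp z i / (Bn z n i * Dt z t i)) ≤
      Av E ν s * (Ff z n t ((401 / 400) * s) - Ff z n t s) := by
    apply mul_le_mul_of_nonneg_left _ hAv
    linarith
  linarith

theorem Av_anti (E ν s s' : ℝ) (hν : 0 < ν) (hs : 0 < s) (h : s ≤ s') :
    Av E ν s' ≤ Av E ν s := by
  unfold Av
  have : Real.log (s / (3200 * ν)) ≤ Real.log (s' / (3200 * ν)) := by
    apply Real.log_le_log (by positivity)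
    gcongr
  linarith

/-- one block of `L` shells. -/
theorem block (z : ℕ → ℝ) (n : ℕ) (hz : Srt z n) (t : ℝ) (ht : ∀ i < n, z i ≠ t)
    (A : Set ℝ) (hA : MeasurableSet A) (E ν S0 : ℝ) (hν : 0 < ν) (hS0 : 0 < S0) (hE : 0 ≤ E)
    (hnear : ∀ a ∈ A, ∃ i < n, |a - z i| ≤ ν)
    (H1 : ∀ x ∈ A, ∑ k ∈ range n, om z n x / (|x - z k| * al z n k) ≤ E)
    (H2 : ∀ x ∈ A,
      ∑ k ∈ range n, om z n x * |x - t| / (|x - z k| * |z k - t| * al z n k) ≤ E)
    (L J0 i : ℕ) (hJ0 : (401 : ℝ) ≤ (401 / 400) ^ J0) (hL : 2 * J0 < L)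
    (hbad : ∀ s, S0 / (401 / 400) ^ ((i + 1) * L) ≤ s → s ≤ S0 →
      40 * (volume (Set.Icc (t - (401 / 400) * s) (t + (401 / 400) * s) \ A)).toReal +
        4 * ν ≤ s / 400000)
    (Q : ℝ) (hQ0 : 0 ≤ Q)
    (hQ : Q ≤ Ff z n t (S0 / (401 / 400) ^ ((i + 1) * L)) ∨
      Q ≤ Ff z n t S0 - Ff z n t (S0 / (401 / 400) ^ (i * L))) :
    0 < Ff z n t (S0 / (401 / 400) ^ (i * L)) ∧
    (((L - 2 * J0 : ℕ) : ℝ) * (2 * (999 / 1000) ^ 2 / 401)) * Q ≤
      Av E ν (S0 / (401 / 400) ^ ((i + 1) * L)) *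
        (Ff z n t (S0 / (401 / 400) ^ (i * L)) -
          Ff z n t (S0 / (401 / 400) ^ ((i + 1) * L))) := by
  have hr0 : (0 : ℝ) < 401 / 400 := by norm_num
  have hr1 : (1 : ℝ) ≤ 401 / 400 := by norm_num
  set σ : ℕ → ℝ := fun j => S0 / (401 / 400) ^ j with hσ
  have hσpos : ∀ j, 0 < σ j := fun j => by positivity
  have hσanti : ∀ j k, j ≤ k → σ k ≤ σ j := by
    intro j k hjk
    have : ((401 : ℝ) / 400) ^ j ≤ (401 / 400) ^ k := pow_le_pow_right₀ hr1 hjk
    simp only [hσ]
    gcongr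
  have hσsucc : ∀ j, (401 / 400) * σ (j + 1) = σ j := by
    intro j
    simp only [hσ, pow_succ]
    field_simp
  have hσadd : ∀ j k, (401 / 400) ^ k * σ (j + k) = σ j := by
    intro j k
    simp only [hσ, pow_add]
    field_simp
  have hk : ∀ k < L - 2 * J0,
      0 ≤ Av E ν (σ (i * L + J0 + k + 1)) ∧
      Ff z n t (σ (i * L + J0 + k + 1)) < Ff z n t (σ (i * L + J0 + k)) ∧
      2 * Q * (999 / 1000) ^ 2 / 401 ≤ Av E ν (σ (i * L + J0 + k + 1)) *
        (Ff z n t (σ (i * L + J0 + k)) - Ff z n t (σ (i * L + J0 + k + 1))) := by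
    intro k hk
    have hmul : (i + 1) * L = i * L + L := by ring
    have h1 : σ ((i + 1) * L) ≤ σ (i * L + J0 + k + 1) := hσanti _ _ (by omega)
    have h2 : σ (i * L + J0 + k + 1) ≤ S0 := by
      have := hσanti 0 (i * L + J0 + k + 1) (by omega)
      simpa [hσ] using this
    have h3 : 401 * σ (i * L + J0 + k + 1) ≤ σ (i * L) := by
      have e := hσadd (i * L + k + 1) J0
      have e2 : i * L + k + 1 + J0 = i * L + J0 + k + 1 := by ring
      rw [e2] at e
      have e3 : σ (i * L + k + 1) ≤ σ (i * L) := hσanti _ _ (by omega)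
      have e4 := mul_le_mul_of_nonneg_right hJ0 (hσpos (i * L + J0 + k + 1)).le
      linarith
    have h4 : σ ((i + 1) * L) ≤ σ (i * L + J0 + k + 1) / 400 := by
      have e := hσadd (i * L + J0 + k + 1) J0
      have e3 : σ ((i + 1) * L) ≤ σ (i * L + J0 + k + 1 + J0) := hσanti _ _ (by omega)
      have e4 := mul_le_mul_of_nonneg_right hJ0 (hσpos (i * L + J0 + k + 1 + J0)).le
      have e5 := hσpos (i * L + J0 + k + 1 + J0)
      rw [le_div_iff₀ (by norm_num)]
      linarith
    have hsh := shell z n hz t ht A hA E ν (σ (i * L + J0 + k + 1)) S0 hν (hσpos _) hE hnear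
      H1 H2 (hbad _ h1 h2) Q hQ0
      (by
        rcases hQ with hQ | hQ
        · left; exact hQ.trans (Ff_mono z n hz t ht h4)
        · right
          have := Ff_mono z n hz t ht h3
          refine hQ.trans ?_
          linarith)
    rw [hσsucc] at hsh
    exact hsh
  have hk0 := hk 0 (by omega)
  have hmul : (i + 1) * L = i * L + L := by ring
  have hAvle : ∀ k < L - 2 * J0, Av E ν (σ (i * L + J0 + k + 1)) ≤ Av E ν (σ ((i + 1) * L)) := by
    intro k hk
    exact Av_anti E ν _ _ hν (hσpos _) (hσanti _ _ (by omega))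
  have hAv0 : 0 ≤ Av E ν (σ ((i + 1) * L)) := hk0.1.trans (hAvle 0 (by omega))
  have hFi : Ff z n t (σ (i * L + J0)) ≤ Ff z n t (σ (i * L)) :=
    Ff_mono z n hz t ht (hσanti _ _ (by omega))
  have hFi1 : Ff z n t (σ ((i + 1) * L)) ≤ Ff z n t (σ (i * L + J0 + (L - 2 * J0))) :=
    Ff_mono z n hz t ht (hσanti _ _ (by omega))
  constructor
  · have h0 := Ff_nonneg z n hz t ht (σ (i * L + J0 + 0 + 1))
    have h1 := hk0.2.1
    simp only [add_zero] at h0 h1
    show 0 < Ff z n t (σ (i * L))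
    linarith
  · show (((L - 2 * J0 : ℕ) : ℝ) * (2 * (999 / 1000) ^ 2 / 401)) * Q ≤
      Av E ν (σ ((i + 1) * L)) * (Ff z n t (σ (i * L)) - Ff z n t (σ ((i + 1) * L)))
    have hsum : ∑ k ∈ range (L - 2 * J0), (2 * Q * (999 / 1000) ^ 2 / 401) ≤
        ∑ k ∈ range (L - 2 * J0), Av E ν (σ ((i + 1) * L)) *
          (Ff z n t (σ (i * L + J0 + k)) - Ff z n t (σ (i * L + J0 + k + 1))) := by
      refine Finset.sum_le_sum fun k hk' => ?_
      rw [mem_range] at hk'
      obtain ⟨a1, a2, a3⟩ := hk k hk'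
      refine a3.trans ?_
      exact mul_le_mul_of_nonneg_right (hAvle k hk') (by linarith)
    rw [← Finset.mul_sum] at hsum
    have htel : ∑ k ∈ range (L - 2 * J0),
        (Ff z n t (σ (i * L + J0 + k)) - Ff z n t (σ (i * L + J0 + k + 1))) =
        Ff z n t (σ (i * L + J0)) - Ff z n t (σ (i * L + J0 + (L - 2 * J0))) := by
      have := Finset.sum_range_sub' (fun k => Ff z n t (σ (i * L + J0 + k))) (L - 2 * J0)
      simpa [add_assoc] using this
    rw [htel, Finset.sum_const, card_range, nsmul_eq_mul] at hsum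
    have : Av E ν (σ ((i + 1) * L)) *
        (Ff z n t (σ (i * L + J0)) - Ff z n t (σ (i * L + J0 + (L - 2 * J0)))) ≤
        Av E ν (σ ((i + 1) * L)) * (Ff z n t (σ (i * L)) - Ff z n t (σ ((i + 1) * L))) := by
      apply mul_le_mul_of_nonneg_left _ hAv0
      linarith
    calc (((L - 2 * J0 : ℕ) : ℝ) * (2 * (999 / 1000) ^ 2 / 401)) * Q
        = ((L - 2 * J0 : ℕ) : ℝ) * (2 * Q * (999 / 1000) ^ 2 / 401) := by ring
      _ ≤ _ := hsum
      _ ≤ _ := this

/-- the contradiction for one `n`, given the numerical conditions. -/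
theorem core (z : ℕ → ℝ) (n : ℕ) (hz : Srt z n) (t : ℝ) (ht : ∀ i < n, z i ≠ t)
    (A : Set ℝ) (hA : MeasurableSet A) (E ν S0 : ℝ) (hν : 0 < ν) (hS0 : 0 < S0) (hE : 0 ≤ E)
    (hnear : ∀ a ∈ A, ∃ i < n, |a - z i| ≤ ν)
    (H1 : ∀ x ∈ A, ∑ k ∈ range n, om z n x / (|x - z k| * al z n k) ≤ E)
    (H2 : ∀ x ∈ A,
      ∑ k ∈ range n, om z n x * |x - t| / (|x - z k| * |z k - t| * al z n k) ≤ E)
    (L J0 : ℕ) (hJ0 : (401 : ℝ) ≤ (401 / 400) ^ J0) (hL : 2 * J0 < L)
    (hbad : ∀ s, S0 / (401 / 400) ^ (97 * L) ≤ s → s ≤ S0 →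
      40 * (volume (Set.Icc (t - (401 / 400) * s) (t + (401 / 400) * s) \ A)).toReal +
        4 * ν ≤ s / 400000)
    (hnum : ∀ i < 97, Av E ν (S0 / (401 / 400) ^ ((i + 1) * L)) ≤
      (32 + i) * (((L - 2 * J0 : ℕ) : ℝ) * (2 * (999 / 1000) ^ 2 / 401))) : False := by
  set Fi : ℕ → ℝ := fun i => Ff z n t (S0 / (401 / 400) ^ (i * L)) with hFi
  set Y : ℝ := ((L - 2 * J0 : ℕ) : ℝ) * (2 * (999 / 1000) ^ 2 / 401) with hY
  have hYpos : 0 < Y := by
    have : (0 : ℝ) < ((L - 2 * J0 : ℕ) : ℝ) := by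
      exact_mod_cast Nat.sub_pos_of_lt hL
    positivity
  have hF0 : Fi 0 = Ff z n t S0 := by simp [hFi]
  have hanti : ∀ i, Fi (i + 1) ≤ Fi i := by
    intro i
    apply Ff_mono z n hz t ht
    have : ((401 : ℝ) / 400) ^ (i * L) ≤ (401 / 400) ^ ((i + 1) * L) :=
      pow_le_pow_right₀ (by norm_num) (Nat.mul_le_mul_right _ (Nat.le_succ _))
    gcongr
  have hnn : ∀ i, 0 ≤ Fi i := fun i => Ff_nonneg z n hz t ht _
  have hanti0 : ∀ i, Fi i ≤ Fi 0 := by
    intro i
    induction i with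
    | zero => exact le_rfl
    | succ i ih => exact (hanti i).trans ih
  have hb : ∀ i < 97, ∀ Q : ℝ, 0 ≤ Q → (Q ≤ Fi (i + 1) ∨ Q ≤ Fi 0 - Fi i) →
      0 < Fi i ∧ (1 / 100) * Q ≤ (31 / 100 + (i + 1) * (1 / 100)) * (Fi i - Fi (i + 1)) := by
    intro i hi Q hQ0 hQ
    have hbl := block z n hz t ht A hA E ν S0 hν hS0 hE hnear H1 H2 L J0 i hJ0 hL
      (by
        intro s hs1 hs2
        refine hbad s (le_trans ?_ hs1) hs2
        have : ((401 : ℝ) / 400) ^ ((i + 1) * L) ≤ (401 / 400) ^ (97 * L) :=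
          pow_le_pow_right₀ (by norm_num) (Nat.mul_le_mul_right _ (by omega))
        gcongr) Q hQ0
      (by rw [hF0] at hQ; exact hQ)
    refine ⟨hbl.1, ?_⟩
    have h1 := hbl.2
    rw [← hY] at h1
    have h2 := mul_le_mul_of_nonneg_right (hnum i hi) (sub_nonneg.mpr (hanti i))
    have h3 : Y * Q ≤ Y * ((32 + i) * (Fi i - Fi (i + 1))) := by
      calc Y * Q ≤ _ := h1
        _ ≤ _ := h2
        _ = _ := by ring
    have h4 := le_of_mul_le_mul_left h3 hYpos
    have h5 : (31 / 100 + ((i : ℝ) + 1) * (1 / 100)) * (Fi i - Fi (i + 1)) =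
        (1 / 100) * ((32 + i) * (Fi i - Fi (i + 1))) := by ring
    rw [h5]
    linarith
  have hF0pos : 0 < Fi 0 := (hb 0 (by norm_num) 0 le_rfl (Or.inl (hnn 1))).1
  have := telescope Fi 97 (31 / 100) (1 / 100) (by norm_num) (by norm_num)
    (fun i hi => (hb i hi (Fi (i + 1)) (hnn _) (Or.inl le_rfl)).2)
    (fun i hi => (hb i hi (Fi 0 - Fi i) (sub_nonneg.mpr (hanti0 i)) (Or.inr le_rfl)).2)
    hF0pos (hnn 97) 32 (by norm_num)
  norm_num at this

end Pool.Agent.Leb624
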