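import Mathlib
import Pool.Agent.Leb624.Core
set_option autoImplicit false
namespace Pool.Agent.Leb624
open Finset MeasureTheory Filter

theorem numerics (S0 : ℝ) (hS0 : 0 < S0) (J0 : ℕ) : ∃ N1 : ℕ, ∀ n : ℕ, N1 ≤ n →
    2 * J0 < ⌊4 * Real.log n⌋₊ ∧
    (∀ i < 97, Av ((16 / 25) * Real.log (n + 1)) ((n : ℝ) ^ (-(199 / 200) : ℝ))
        (S0 / (401 / 400) ^ ((i + 1) * ⌊4 * Real.log n⌋₊)) ≤
      (32 + i) * (((⌊4 * Real.log n⌋₊ - 2 * J0 : ℕ) : ℝ) * (2 * (999 / 1000) ^ 2 / 401))) ∧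
    (∀ s, S0 / (401 / 400) ^ (97 * ⌊4 * Real.log n⌋₊) ≤ s →
      10 ^ 7 * (n : ℝ) ^ (-(199 / 200) : ℝ) ≤ s) := by
  have htend : Tendsto (fun n : ℕ => Real.log (n : ℝ)) atTop atTop :=
    Real.tendsto_log_atTop.comp tendsto_natCast_atTop_atTop
  set Cst : ℝ := 128 * (1 + 2 * J0) + 20 + 2 * Real.log 3200 + 2 * |Real.log S0| +
    2 * Real.log (10 ^ 7) with hCst
  have hev : ∀ᶠ n : ℕ in atTop, 40 * Cst ≤ Real.log (n : ℝ) := htend.eventually_ge_atTop _
  obtain ⟨N1, hN1⟩ := (hev.and (eventually_ge_atTop 2)).exists_forall_of_atTop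
  refine ⟨N1, fun n hn => ?_⟩
  obtain ⟨hbig, hn2⟩ := hN1 n hn
  have hnpos : (0 : ℝ) < n := by exact_mod_cast (by omega : 0 < n)
  have hn1 : (1 : ℝ) ≤ n := by exact_mod_cast (by omega : 1 ≤ n)
  set l : ℝ := Real.log n with hl
  have hJ0nn : (0 : ℝ) ≤ (J0 : ℝ) := Nat.cast_nonneg _
  have h3200 : 0 ≤ Real.log 3200 := Real.log_nonneg (by norm_num)
  have h107 : 0 ≤ Real.log (10 ^ 7) := Real.log_nonneg (by norm_num)
  have habs : 0 ≤ |Real.log S0| := abs_nonneg _
  have habs1 : -|Real.log S0| ≤ Real.log S0 := neg_abs_le _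
  have hl0 : 0 ≤ l := by nlinarith
  set L : ℕ := ⌊4 * l⌋₊ with hL
  have hLle : (L : ℝ) ≤ 4 * l := Nat.floor_le (by linarith)
  have hLge : 4 * l - 1 < (L : ℝ) := by
    have := Nat.lt_floor_add_one (4 * l)
    linarith
  have hJL : 2 * J0 < L := by
    have : ((2 * J0 : ℕ) : ℝ) < (L : ℝ) := by
      push_cast
      nlinarith
    exact_mod_cast this
  have hlogr : Real.log (401 / 400) ≤ 1 / 400 := by
    have := Real.log_le_sub_one_of_pos (show (0 : ℝ) < 401 / 400 by norm_num)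
    linarith
  have hlogr0 : 0 ≤ Real.log (401 / 400) := Real.log_nonneg (by norm_num)
  have hLr : (L : ℝ) * Real.log (401 / 400) ≤ l / 100 := by
    calc (L : ℝ) * Real.log (401 / 400) ≤ (4 * l) * (1 / 400) :=
          mul_le_mul hLle hlogr hlogr0 (by linarith)
      _ = l / 100 := by ring
  have hlogS : ∀ k : ℕ, Real.log S0 - k * (l / 100) ≤
      Real.log (S0 / (401 / 400) ^ (k * L)) := by
    intro k
    rw [Real.log_div hS0.ne' (by positivity), Real.log_pow]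
    push_cast
    have : (k : ℝ) * ((L : ℝ) * Real.log (401 / 400)) ≤ k * (l / 100) :=
      mul_le_mul_of_nonneg_left hLr (Nat.cast_nonneg _)
    linarith
  have hlogν : Real.log ((n : ℝ) ^ (-(199 / 200) : ℝ)) = -(199 / 200) * l := by
    rw [Real.log_rpow hnpos]
  have hνpos : 0 < (n : ℝ) ^ (-(199 / 200) : ℝ) := Real.rpow_pos_of_pos hnpos _
  refine ⟨hJL, ?_, ?_⟩
  · intro i hi
    have hi0 : (0 : ℝ) ≤ (i : ℝ) := Nat.cast_nonneg _
    have hi96 : (i : ℝ) ≤ 96 := by exact_mod_cast (by omega : i ≤ 96)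
    unfold Av
    have hSpos : 0 < S0 / (401 / 400) ^ ((i + 1) * L) := by positivity
    rw [Real.log_div hSpos.ne' (by positivity), Real.log_mul (by norm_num) hνpos.ne', hlogν]
    have h1 := hlogS (i + 1)
    push_cast at h1
    have hlog1 : Real.log ((n : ℝ) + 1) ≤ l + 1 := by
      have h2 : (n : ℝ) + 1 ≤ n * Real.exp 1 := by
        have := Real.add_one_le_exp (1 : ℝ)
        nlinarith
      have h3 : Real.log ((n : ℝ) + 1) ≤ Real.log (n * Real.exp 1) :=
        Real.log_le_log (by positivity) h2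
      rw [Real.log_mul hnpos.ne' (Real.exp_pos 1).ne', Real.log_exp] at h3
      exact h3
    have hcast : ((L - 2 * J0 : ℕ) : ℝ) = (L : ℝ) - 2 * J0 := by
      rw [Nat.cast_sub hJL.le]; push_cast; ring
    rw [hcast]
    have hK : 4 * l - 1 - 2 * J0 ≤ (L : ℝ) - 2 * J0 := by linarith
    have hR : (32 + (i : ℝ)) * ((4 * l - 1 - 2 * J0) * (2 * (999 / 1000) ^ 2 / 401)) ≤
        (32 + (i : ℝ)) * (((L : ℝ) - 2 * J0) * (2 * (999 / 1000) ^ 2 / 401)) := by
      apply mul_le_mul_of_nonneg_left _ (by linarith)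
      exact mul_le_mul_of_nonneg_right hK (by norm_num)
    refine le_trans ?_ hR
    have hil : (i : ℝ) * l ≤ 96 * l := mul_le_mul_of_nonneg_right hi96 hl0
    have hiJ : (i : ℝ) * J0 ≤ 96 * J0 := mul_le_mul_of_nonneg_right hi96 hJ0nn
    nlinarith
  · intro s hs
    refine le_trans ?_ hs
    have hSpos : 0 < S0 / (401 / 400) ^ (97 * L) := by positivity
    rw [← Real.log_le_log_iff (by positivity) hSpos, Real.log_mul (by norm_num) hνpos.ne', hlogν]
    have h1 := hlogS 97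
    push_cast at h1
    refine le_trans ?_ h1
    rw [hCst] at hbig
    generalize Real.log (10 ^ 7) = w at *
    linarith

end Pool.Agent.Leb624
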