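import Mathlib
import Pool.Agent.Leb624.Defs
import Pool.Prelude.Def_F_5a667248
set_option autoImplicit false
open N216bd313
namespace Pool.Agent.Leb624
open Finset

lemma reidx {ι : Type*} [DecidableEq ι] (s : Finset ι) (z : ι → ℝ) (hinj : Set.InjOn z s)
    (g : ℝ → ℝ) (x : ℝ) :
    ∑ y ∈ s.image z, g y * ∏ w ∈ (s.image z).erase y, (|x - w| / |y - w|) =
      ∑ k ∈ s, g (z k) * ∏ j ∈ s.erase k, (|x - z j| / |z k - z j|) := by
  rw [Finset.sum_image hinj]
  refine Finset.sum_congr rfl fun k hk => ?_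
  have h1 : (s.image z).erase (z k) = (s.erase k).image z := by
    ext w
    simp only [Finset.mem_erase, Finset.mem_image]
    constructor
    · rintro ⟨hne, j, hj, rfl⟩
      exact ⟨j, ⟨fun h => hne (by rw [h]), hj⟩, rfl⟩
    · rintro ⟨j, ⟨hne, hj⟩, rfl⟩
      exact ⟨fun h => hne (hinj hj hk h), j, hj, rfl⟩
  rw [h1, Finset.prod_image]
  intro a ha b hb h
  exact hinj (Finset.mem_of_mem_erase ha) (Finset.mem_of_mem_erase hb) h

lemma leb_eq {n : ℕ} (v : Fin n → ℝ) (hv : Function.Injective v) (x : ℝ) :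
    lebesgueFunction v x =
      ∑ y ∈ Finset.univ.image v, ∏ w ∈ (Finset.univ.image v).erase y, (|x - w| / |y - w|) := by
  have h := reidx Finset.univ v hv.injOn (fun _ => 1) x
  simp only [one_mul] at h
  rw [h]
  unfold lebesgueFunction lagrangeBasis
  refine Finset.sum_congr rfl fun k _ => ?_
  rw [Lagrange.basis, Polynomial.eval_prod, Finset.abs_prod]
  refine Finset.prod_congr rfl fun j _ => ?_
  simp only [Lagrange.basisDivisor, Polynomial.eval_mul, Polynomial.eval_C, Polynomial.eval_sub,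
    Polynomial.eval_X, abs_mul, abs_inv]
  rw [div_eq_mul_inv, mul_comm]

lemma term_le (z : ℕ → ℝ) (n k : ℕ) (hk : k ∈ range n) (x : ℝ) :
    om z n x / (|x - z k| * al z n k) ≤ ∏ j ∈ (range n).erase k, (|x - z j| / |z k - z j|) := by
  rw [Finset.prod_div_distrib]
  unfold om al
  rw [← Finset.mul_prod_erase _ _ hk]
  by_cases h : |x - z k| = 0
  · rw [h, zero_mul, zero_mul, div_zero]
    positivity
  · rw [mul_div_mul_left _ _ h]

theorem leb_lower (xs : ℕ → Set.Icc (-1 : ℝ) 1) (hinj : Function.Injective xs) (n : ℕ) :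
    ∃ z : ℕ → ℝ, Srt z n ∧ (∀ k < n, ∃ i < n, z i = (xs k : ℝ)) ∧ (∀ i < n, z i ≠ (xs n : ℝ)) ∧
      (∀ x : ℝ, ∑ k ∈ range n, om z n x / (|x - z k| * al z n k)
        ≤ lebesgueFunctionSeq xs n x) ∧
      (∀ x : ℝ, ∑ k ∈ range n, om z n x * |x - (xs n : ℝ)| /
          (|x - z k| * |z k - (xs n : ℝ)| * al z n k)
        ≤ lebesgueFunctionSeq xs (n + 1) x) := by
  have hv : ∀ m : ℕ, Function.Injective (fun k : Fin m => ((xs k : Set.Icc (-1 : ℝ) 1) : ℝ)) := by
    intro m a b h
    exact Fin.ext (hinj (Subtype.ext h))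
  set P : Finset ℝ := Finset.univ.image (fun k : Fin n => ((xs k : Set.Icc (-1 : ℝ) 1) : ℝ)) with hP
  have hcard : P.card = n := by
    rw [hP, Finset.card_image_of_injective _ (hv n), Finset.card_univ, Fintype.card_fin]
  have hmem : ∀ y, y ∈ P ↔ ∃ k < n, (xs k : ℝ) = y := by
    intro y
    rw [hP, Finset.mem_image]
    constructor
    · rintro ⟨k, _, rfl⟩
      exact ⟨k, k.2, rfl⟩
    · rintro ⟨k, hk, rfl⟩
      exact ⟨⟨k, hk⟩, Finset.mem_univ _, rfl⟩
  let z : ℕ → ℝ := fun i => if h : i < n then P.orderEmbOfFin hcard ⟨i, h⟩ else 0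
  have hz : ∀ i (h : i < n), z i = P.orderEmbOfFin hcard ⟨i, h⟩ := fun i h => dif_pos h
  have hsrt : Srt z n := by
    intro i j hij hj
    rw [hz i (hij.trans hj), hz j hj]
    exact (P.orderEmbOfFin hcard).strictMono hij
  have hzinj : Set.InjOn z (range n) := by
    intro a ha b hb h
    have ha' := Finset.mem_range.1 (Finset.mem_coe.1 ha)
    have hb' := Finset.mem_range.1 (Finset.mem_coe.1 hb)
    rcases lt_trichotomy a b with h1 | h1 | h1
    · exact absurd h (hsrt a b h1 hb').ne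
    · exact h1
    · exact absurd h.symm (hsrt b a h1 ha').ne
  have hzP : (range n).image z = P := by
    ext y
    rw [Finset.mem_image]
    constructor
    · rintro ⟨i, hi, rfl⟩
      rw [hz i (Finset.mem_range.1 hi)]
      exact P.orderEmbOfFin_mem hcard _
    · intro hy
      have h1 : y ∈ Set.range (P.orderEmbOfFin hcard) := by
        rw [Finset.range_orderEmbOfFin]
        exact hy
      obtain ⟨i, hi⟩ := h1
      exact ⟨i, Finset.mem_range.2 i.2, by rw [hz i i.2]; exact hi⟩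
  have hn : (xs n : ℝ) ∉ P := by
    rw [hmem]
    rintro ⟨k, hk, h⟩
    have := hinj (Subtype.ext h)
    omega
  refine ⟨z, hsrt, ?_, ?_, ?_, ?_⟩
  · intro k hk
    have h1 : (xs k : ℝ) ∈ (range n).image z := by
      rw [hzP, hmem]
      exact ⟨k, hk, rfl⟩
    obtain ⟨i, hi, h⟩ := Finset.mem_image.1 h1
    exact ⟨i, Finset.mem_range.1 hi, h⟩
  · intro i hi h
    apply hn
    rw [← h, ← hzP]
    exact Finset.mem_image_of_mem z (Finset.mem_range.2 hi)
  · intro x
    unfold lebesgueFunctionSeq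
    rw [leb_eq _ (hv n), ← hP]
    have h := reidx (range n) z hzinj (fun _ => 1) x
    simp only [one_mul] at h
    rw [hzP] at h
    rw [h]
    exact Finset.sum_le_sum fun k hk => term_le z n k hk x
  · intro x
    unfold lebesgueFunctionSeq
    rw [leb_eq _ (hv (n + 1))]
    have hP' : Finset.univ.image (fun k : Fin (n + 1) => ((xs k : Set.Icc (-1 : ℝ) 1) : ℝ)) =
        insert (xs n : ℝ) P := by
      ext y
      rw [Finset.mem_image, Finset.mem_insert, hmem]
      constructor
      · rintro ⟨k, _, rfl⟩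
        rcases Nat.lt_succ_iff_lt_or_eq.1 k.2 with h | h
        · exact Or.inr ⟨k, h, rfl⟩
        · left; rw [h]
      · rintro (rfl | ⟨k, hk, rfl⟩)
        · exact ⟨⟨n, Nat.lt_succ_self n⟩, Finset.mem_univ _, rfl⟩
        · exact ⟨⟨k, by omega⟩, Finset.mem_univ _, rfl⟩
    rw [hP', Finset.sum_insert hn]
    have h1 : ∀ y ∈ P, ∏ w ∈ (insert (xs n : ℝ) P).erase y, (|x - w| / |y - w|) =
        (|x - (xs n : ℝ)| / |y - (xs n : ℝ)|) * ∏ w ∈ P.erase y, (|x - w| / |y - w|) := by
      intro y hy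
      have hne : (xs n : ℝ) ≠ y := fun h => hn (h ▸ hy)
      rw [Finset.erase_insert_of_ne hne, Finset.prod_insert]
      intro h
      exact hn (Finset.mem_of_mem_erase h)
    rw [Finset.sum_congr rfl h1]
    have h := reidx (range n) z hzinj (fun y => |x - (xs n : ℝ)| / |y - (xs n : ℝ)|) x
    rw [hzP] at h
    rw [h]
    have h2 : 0 ≤ ∏ w ∈ (insert (xs n : ℝ) P).erase (xs n : ℝ), (|x - w| / |(xs n : ℝ) - w|) := by
      positivity
    refine le_trans ?_ (le_add_of_nonneg_left h2)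
    refine Finset.sum_le_sum fun k hk => ?_
    have h3 := term_le z n k hk x
    have h4 : om z n x * |x - (xs n : ℝ)| / (|x - z k| * |z k - (xs n : ℝ)| * al z n k) =
        (|x - (xs n : ℝ)| / |z k - (xs n : ℝ)|) * (om z n x / (|x - z k| * al z n k)) := by
      rw [div_mul_div_comm]
      congr 1 <;> ring
    rw [h4]
    exact mul_le_mul_of_nonneg_left h3 (by positivity)

end Pool.Agent.Leb624
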