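import Mathlib
import Pool.Prelude.Def_F_5a667248
import Pool.Agent.Leb624.Core
import Pool.Agent.Leb624.Numerics
import Pool.Agent.Leb624.Sorted
import Pool.Agent.Leb624.Cheb
import Pool.Agent.Leb624.Choose
set_option autoImplicit false
open N216bd313
namespace Pool.Agent.Leb624
open Finset MeasureTheory Filter

theorem leb_meas (xs : ℕ → Set.Icc (-1 : ℝ) 1) (n : ℕ) :
    Measurable (fun x : ℝ => lebesgueFunctionSeq xs n x) := by
  unfold lebesgueFunctionSeq lebesgueFunction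
  apply Continuous.measurable
  apply continuous_finsetSum
  intro k _
  exact (Polynomial.continuous _).abs

/-- every point where `L_n ≤ c log n` has a node within `n^{-199/200}`, for `n` large. -/
theorem near (xs : ℕ → Set.Icc (-1 : ℝ) 1) (hinj : Function.Injective xs) (N : ℕ) (A : Set ℝ)
    (hA1 : ∀ a ∈ A, a ∈ Set.Ioo (-1 : ℝ) 1)
    (hA : ∀ a ∈ A, ∀ n ≥ N, lebesgueFunctionSeq xs n a ≤ (16 / 25) * Real.log n) :
    ∃ N0 : ℕ, ∀ n ≥ N0, ∀ a ∈ A, ∃ k < n, |a - (xs k : ℝ)| ≤ (n : ℝ) ^ (-(199 / 200 : ℝ)) := by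
  have hlog : ∀ᶠ n : ℕ in atTop, Real.log (n : ℝ) ≤ (1 / 32) * (n : ℝ) ^ (1 / 100 : ℝ) := by
    have h := (isLittleO_log_rpow_atTop (show (0 : ℝ) < 1 / 100 by norm_num)).bound
      (show (0 : ℝ) < 1 / 32 by norm_num)
    have h2 := tendsto_natCast_atTop_atTop (R := ℝ) |>.eventually h
    filter_upwards [h2, eventually_ge_atTop 1] with n hn hn1
    have hn1' : (1 : ℝ) ≤ n := by exact_mod_cast hn1
    rw [Real.norm_of_nonneg (Real.log_nonneg hn1'),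
      Real.norm_of_nonneg (by positivity)] at hn
    exact hn
  obtain ⟨N0, hN0⟩ := (hlog.and (eventually_ge_atTop (max N 4))).exists_forall_of_atTop
  refine ⟨N0, fun n hn a ha => ?_⟩
  obtain ⟨h1, h2⟩ := hN0 n hn
  have hnN : N ≤ n := (le_max_left _ _).trans h2
  have hn4 : 4 ≤ n := (le_max_right _ _).trans h2
  by_contra hcon
  push Not at hcon
  have hn4' : (4 : ℝ) ≤ n := by exact_mod_cast hn4
  have hnpos : (0 : ℝ) < n := by linarith
  have hs0 : 0 < (n : ℝ) ^ (-(199 / 200 : ℝ)) := Real.rpow_pos_of_pos hnpos _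
  have hs1 : (n : ℝ) ^ (-(199 / 200 : ℝ)) < 1 :=
    Real.rpow_lt_one_of_one_lt_of_neg (by linarith) (by norm_num)
  have hnd := node_density xs hinj n ((n - 1) / 2) (by omega) a
    ⟨(hA1 a ha).1.le, (hA1 a ha).2.le⟩ _ hs0 hs1
    (fun k hk => by rw [abs_sub_comm]; exact (hcon k hk).le)
  have hL := hA a ha n hnN
  have hm : (n : ℝ) / 4 ≤ (((n - 1) / 2 : ℕ) : ℝ) := by
    have : n ≤ 4 * ((n - 1) / 2) := by omega
    have h3 : (n : ℝ) ≤ 4 * (((n - 1) / 2 : ℕ) : ℝ) := by exact_mod_cast this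
    linarith
  have hsq : ((n : ℝ) ^ (-(199 / 200 : ℝ))) ^ 2 = (n : ℝ) ^ (-(199 / 100 : ℝ)) := by
    rw [← Real.rpow_natCast, ← Real.rpow_mul hnpos.le]
    norm_num
  have hprod : (n : ℝ) ^ 2 * (n : ℝ) ^ (-(199 / 100 : ℝ)) = (n : ℝ) ^ (1 / 100 : ℝ) := by
    rw [← Real.rpow_natCast, ← Real.rpow_add hnpos]
    norm_num
  have hm2 : ((n : ℝ) / 4) ^ 2 ≤ (((n - 1) / 2 : ℕ) : ℝ) ^ 2 :=
    pow_le_pow_left₀ (by positivity) hm 2
  rw [hsq] at hnd
  have hpos : 0 < (n : ℝ) ^ (-(199 / 100 : ℝ)) := Real.rpow_pos_of_pos hnpos _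
  have h5 : ((n : ℝ) / 4) ^ 2 * (n : ℝ) ^ (-(199 / 100 : ℝ)) ≤
      (((n - 1) / 2 : ℕ) : ℝ) ^ 2 * (n : ℝ) ^ (-(199 / 100 : ℝ)) :=
    mul_le_mul_of_nonneg_right hm2 hpos.le
  have h6 : ((n : ℝ) / 4) ^ 2 * (n : ℝ) ^ (-(199 / 100 : ℝ)) =
      (1 / 16) * (n : ℝ) ^ (1 / 100 : ℝ) := by
    rw [← hprod]; ring
  have hpp : 0 < (n : ℝ) ^ (1 / 100 : ℝ) := Real.rpow_pos_of_pos hnpos _
  linarith

theorem no_positive (xs : ℕ → Set.Icc (-1 : ℝ) 1) (hinj : Function.Injective xs) (N : ℕ) :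
    volume {a : ℝ | a ∈ Set.Ioo (-1 : ℝ) 1 ∧
      ∀ n ≥ N, lebesgueFunctionSeq xs n a ≤ (16 / 25) * Real.log n} = 0 := by
  by_contra hne
  set A : Set ℝ := {a : ℝ | a ∈ Set.Ioo (-1 : ℝ) 1 ∧
      ∀ n ≥ N, lebesgueFunctionSeq xs n a ≤ (16 / 25) * Real.log n} with hAdef
  have hpos : 0 < volume A := pos_iff_ne_zero.mpr hne
  have hAmeas : MeasurableSet A := by
    have : A = Set.Ioo (-1 : ℝ) 1 ∩ ⋂ n : ℕ, ⋂ _ : n ≥ N,
        {a : ℝ | lebesgueFunctionSeq xs n a ≤ (16 / 25) * Real.log n} := by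
      ext a
      simp [hAdef]
    rw [this]
    refine measurableSet_Ioo.inter (MeasurableSet.iInter fun n => MeasurableSet.iInter fun _ => ?_)
    exact measurableSet_le (leb_meas xs n) measurable_const
  have hA1 : ∀ a ∈ A, a ∈ Set.Ioo (-1 : ℝ) 1 := fun a ha => ha.1
  have hA2 : ∀ a ∈ A, ∀ n ≥ N, lebesgueFunctionSeq xs n a ≤ (16 / 25) * Real.log n :=
    fun a ha => ha.2
  have hnear := near xs hinj N A hA1 hA2
  obtain ⟨N0, hN0⟩ := hnear
  obtain ⟨r0, hr0, hch⟩ := choose_n xs A hAmeas hpos (1 / 10 ^ 8) (by norm_num) (199 / 200)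
    (by norm_num) ⟨N0, hN0⟩
  obtain ⟨J0, hJ0⟩ := pow_unbounded_of_one_lt (401 : ℝ) (show (1 : ℝ) < 401 / 400 by norm_num)
  obtain ⟨N1, hN1⟩ := numerics (r0 / 2) (by positivity) J0
  obtain ⟨n, hn, hdens⟩ := hch (max (max N N0) (max N1 1))
  have hnN : N ≤ n := by omega
  have hnN0 : N0 ≤ n := by omega
  have hnN1 : N1 ≤ n := by omega
  have hn1 : 1 ≤ n := by omega
  obtain ⟨hJL, hnum, hsm⟩ := hN1 n hnN1
  obtain ⟨z, hz, hsurj, ht, hL1, hL2⟩ := leb_lower xs hinj n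
  have hnpos : (0 : ℝ) < n := by exact_mod_cast hn1
  have hνpos : 0 < (n : ℝ) ^ (-(199 / 200) : ℝ) := Real.rpow_pos_of_pos hnpos _
  have hE0 : 0 ≤ (16 / 25) * Real.log ((n : ℝ) + 1) := by
    have : 0 ≤ Real.log ((n : ℝ) + 1) := Real.log_nonneg (by linarith)
    positivity
  refine core z n hz (xs n : ℝ) ht A hAmeas ((16 / 25) * Real.log (n + 1))
    ((n : ℝ) ^ (-(199 / 200) : ℝ)) (r0 / 2) hνpos (by positivity) hE0 ?_ ?_ ?_
    ⌊4 * Real.log n⌋₊ J0 hJ0.le hJL ?_ hnum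
  · intro a ha
    obtain ⟨k, hk, hka⟩ := hN0 n hnN0 a ha
    obtain ⟨i, hi, hzi⟩ := hsurj k hk
    exact ⟨i, hi, by rw [hzi]; exact hka⟩
  · intro x hx
    refine (hL1 x).trans ((hA2 x hx n hnN).trans ?_)
    apply mul_le_mul_of_nonneg_left _ (by norm_num)
    exact Real.log_le_log hnpos (by linarith)
  · intro x hx
    refine (hL2 x).trans ?_
    have := hA2 x hx (n + 1) (by omega)
    push_cast at this
    exact this
  · intro s hs1 hs2
    have hsν := hsm s hs1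
    have hspos : 0 < s := lt_of_lt_of_le (by positivity) hsν
    have h1 := hdens ((401 / 400) * s) (by linarith) (by linarith)
    linarith

theorem ae_main (xs : ℕ → Set.Icc (-1 : ℝ) 1) (hinj : Function.Injective xs) :
    ∀ᵐ x ∂volume.restrict (Set.Ioo (-1 : ℝ) 1),
      ∃ᶠ n : ℕ in atTop, (16 / 25) * Real.log n < lebesgueFunctionSeq xs n x := by
  rw [ae_restrict_iff' measurableSet_Ioo]
  rw [ae_iff]
  have hsub : {x : ℝ | ¬ (x ∈ Set.Ioo (-1 : ℝ) 1 →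
      ∃ᶠ n : ℕ in atTop, (16 / 25) * Real.log n < lebesgueFunctionSeq xs n x)} ⊆
      ⋃ N : ℕ, {a : ℝ | a ∈ Set.Ioo (-1 : ℝ) 1 ∧
      ∀ n ≥ N, lebesgueFunctionSeq xs n a ≤ (16 / 25) * Real.log n} := by
    intro x hx
    rw [Set.mem_ofPred_eq, Classical.not_imp, Filter.not_frequently] at hx
    obtain ⟨hx1, hx2⟩ := hx
    obtain ⟨N, hN⟩ := hx2.exists_forall_of_atTop
    rw [Set.mem_iUnion]
    exact ⟨N, hx1, fun n hn => not_lt.mp (hN n hn)⟩
  exact measure_mono_null hsub (measure_iUnion_null fun N => no_positive xs hinj N)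

theorem limsup_ge (f g : ℕ → ℝ) (c : ℝ) (hg : ∀ᶠ n in atTop, 0 < g n)
    (h : ∃ᶠ n in atTop, c * g n < f n) :
    (c : EReal) ≤ atTop.limsup fun n : ℕ => ((f n : EReal) / (g n : EReal)) := by
  refine le_limsup_of_frequently_le ((h.and_eventually hg).mono fun n hn => ?_)
    (by isBoundedDefault)
  rw [← EReal.coe_div, EReal.coe_le_coe_iff, le_div_iff₀ hn.2]
  exact hn.1.le

theorem final (xs : ℕ → Set.Icc (-1 : ℝ) 1) (hinj : Function.Injective xs) :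
    ∀ᵐ x ∂volume.restrict (Set.Ioo (-1 : ℝ) 1), (2 / Real.pi : EReal) ≤
      atTop.limsup fun n : ℕ ↦ (lebesgueFunctionSeq xs n x / Real.log n : EReal) := by
  filter_upwards [ae_main xs hinj] with x hx
  have h1 : ((16 / 25 : ℝ) : EReal) ≤
      atTop.limsup fun n : ℕ ↦ (lebesgueFunctionSeq xs n x / Real.log n : EReal) := by
    apply limsup_ge (fun n => lebesgueFunctionSeq xs n x) (fun n : ℕ => Real.log n) (16 / 25) _ hx
    filter_upwards [eventually_ge_atTop 2] with n hn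
    exact Real.log_pos (by exact_mod_cast hn)
  refine le_trans ?_ h1
  have h2 : (2 / Real.pi : EReal) = ((2 / Real.pi : ℝ) : EReal) := by
    rw [EReal.coe_div]; rfl
  rw [h2, EReal.coe_le_coe_iff]
  rw [div_le_iff₀ Real.pi_pos]
  have := Real.pi_gt_d2
  linarith

end Pool.Agent.Leb624
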